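import Pool.Agent.Helper27_Sob.Defs

/-!
Basic lemmas about `LocLip`.
-/

set_option autoImplicit false

open Set Filter Topology Metric MeasureTheory
open scoped ENNReal NNReal

namespace Pool.Agent.Helper27Sob

variable {X Y W : Type*} [PseudoMetricSpace X] [PseudoMetricSpace Y] [PseudoMetricSpace W]

theorem LocLip.mono {f : X → Y} {U V : Set X} (h : LocLip f U) (hV : V ⊆ U) : LocLip f V :=
  fun x hx => h x (hV hx)

theorem LocLip.continuousAt {f : X → Y} {U : Set X} (h : LocLip f U) {x : X} (hx : x ∈ U) :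
    ContinuousAt f x := by
  obtain ⟨r, hr, K, hK⟩ := h x hx
  exact (hK.continuousOn x (mem_ball_self hr)).continuousAt (ball_mem_nhds x hr)

theorem LocLip.comp {g : Y → W} {f : X → Y} {V : Set Y} {U : Set X} (hg : LocLip g V)
    (hf : LocLip f U) (h : MapsTo f U V) : LocLip (g ∘ f) U := by
  intro x hx
  obtain ⟨r, hr, K, hK⟩ := hf x hx
  obtain ⟨r', hr', K', hK'⟩ := hg (f x) (h hx)
  have hc : ContinuousAt f x := hf.continuousAt hx
  obtain ⟨r'', hr'', hsub⟩ := Metric.continuousAt_iff.1 hc r' hr'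
  refine ⟨min r r'', lt_min hr hr'', K' * K, ?_⟩
  refine hK'.comp (hK.mono (ball_subset_ball (min_le_left _ _))) ?_
  intro y hy
  exact hsub (lt_of_lt_of_le (mem_ball.1 hy) (min_le_right _ _))

theorem LipschitzWith.locLip {f : X → Y} {K : ℝ≥0} (h : LipschitzWith K f) (U : Set X) :
    LocLip f U := fun x _ => ⟨1, one_pos, K, h.lipschitzOnWith⟩

/-- Uniform local Lipschitz constants on a compact set. -/
theorem LocLip.exists_unif {f : X → Y} {U K : Set X} (h : LocLip f U) (hK : IsCompact K)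
    (hKU : K ⊆ U) : ∃ L : ℝ≥0, ∀ x ∈ K, ∃ r > 0, LipschitzOnWith L f (ball x r) := by
  choose! r hr L hL using h
  obtain ⟨t, ht, hcov⟩ := hK.elim_nhds_subcover (fun x => ball x (r x))
    (fun x hx => ball_mem_nhds x (hr x (hKU hx)))
  refine ⟨t.sup L, fun x hx => ?_⟩
  obtain ⟨y, hyt, hxy⟩ : ∃ y ∈ t, x ∈ ball y (r y) := by simpa using hcov hx
  refine ⟨r y - dist x y, by rw [mem_ball] at hxy; linarith, ?_⟩
  refine ((hL y (hKU (ht y hyt))).mono ?_).weaken (Finset.le_sup hyt)
  exact ball_subset_ball' (by linarith)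

/-- A locally Lipschitz map is Lipschitz on compact sets. -/
theorem LocLip.lipschitzOn_of_isCompact {f : X → Y} {U K : Set X} (h : LocLip f U)
    (hK : IsCompact K) (hKU : K ⊆ U) : ∃ L : ℝ≥0, LipschitzOnWith L f K := by
  obtain ⟨L, hL⟩ := h.exists_unif hK hKU
  choose! r hr hL using hL
  obtain ⟨δ, hδ, hleb⟩ := lebesgue_number_lemma_of_metric (c := fun x : K => ball (x : X) (r x)) hK
    (fun _ => isOpen_ball) (fun x hx => mem_iUnion.2 ⟨⟨x, hx⟩, mem_ball_self (hr x hx)⟩)
  have hfc : ContinuousOn f K := fun x hx => (h.continuousAt (hKU hx)).continuousWithinAt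
  have hbd : Bornology.IsBounded (f '' K) := (hK.image_of_continuousOn hfc).isBounded
  have hD0 : 0 ≤ diam (f '' K) := diam_nonneg
  refine ⟨L + (diam (f '' K) / δ).toNNReal, LipschitzOnWith.of_dist_le_mul fun x hx y hy => ?_⟩
  have hc : ((L + (diam (f '' K) / δ).toNNReal : ℝ≥0) : ℝ) = L + diam (f '' K) / δ := by
    rw [NNReal.coe_add, Real.coe_toNNReal _ (by positivity)]
  rw [hc]
  rcases lt_or_ge (dist y x) δ with hlt | hge
  · obtain ⟨z, hz⟩ := hleb x hx
    have h1 := (hL z z.2).dist_le_mul x (hz (mem_ball_self hδ)) y (hz (mem_ball.2 hlt))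
    refine h1.trans ?_
    have : 0 ≤ diam (f '' K) / δ * dist x y := by positivity
    linarith
  · have h1 : dist (f x) (f y) ≤ diam (f '' K) :=
      dist_le_diam_of_mem hbd (mem_image_of_mem f hx) (mem_image_of_mem f hy)
    have h2 : diam (f '' K) ≤ diam (f '' K) / δ * dist x y := by
      rw [div_mul_eq_mul_div, le_div_iff₀ hδ]
      rw [dist_comm] at hge
      exact mul_le_mul_of_nonneg_left hge hD0
    have : 0 ≤ (L : ℝ) * dist x y := by positivity
    linarith

end Pool.Agent.Helper27Sob
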