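import Pool.Agent.Helper27_Sob.Defs

/-!
Blueprint for MP_60fe1d_an: the statements of the modules. Each module proves one of these
propositions (`theorem a1 : A1Statement` and so on).
-/

set_option autoImplicit false

open Set Filter Topology Metric MeasureTheory
open scoped ENNReal NNReal

namespace Pool.Agent.Helper27Sob

/-! ### Part A: the squeezing map -/

/-- A1: basic facts about the dyadic complex. -/
def A1Statement : Prop := ∀ C : Set E, IsClosed C →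
  (∀ x ∉ C, ∃ F, IsC C F ∧ x ∈ F.inner) ∧
  (∀ F G x, IsC C F → IsC C G → x ∈ F.inner → x ∈ G.inner → F = G) ∧
  (∀ F G x, IsC C F → IsC C G → x ∈ F.carrier → x ∈ G.inner →
    G.carrier ⊆ F.carrier ∧ (G = F ∨ G.dim < F.dim) ∧ (G.i = F.i ∨ G.i = F.i + 1)) ∧
  (∀ F, IsC C F → ∀ x ∈ F.carrier, ∀ c ∈ C, F.len ≤ ‖x - c‖) ∧
  (∀ K, IsCompact K → Disjoint K C → {F | IsC C F ∧ (F.carrier ∩ K).Nonempty}.Finite) ∧
  (IsCompact C → ∀ R, IsCompact (KK C R))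

/-- A2: chains of cells are affinely independent with a uniform bound. -/
def A2Statement : Prop := ∀ C : Set E, IsClosed C → ∀ s : Finset Cell, IsCh C (s : Set Cell) →
  ∀ T ∈ s, (∀ F ∈ s, F.carrier ⊆ T.carrier) → ∀ v : Cell → ℝ, ∑ F ∈ s, v F = 0 →
    ∀ F ∈ s, |v F| * T.len ≤ 128 * ‖∑ G ∈ s, v G • G.center‖

/-- A3: barycentric coordinates exist and are unique; almost every point has a full flag. -/
def A3Statement : Prop := ∀ C : Set E, IsClosed C →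
  (∀ x ∉ C, ∃ w, IsBary C w x) ∧
  (∀ x w w', IsBary C w x → IsBary C w' x → w = w') ∧
  (∀ x w, IsBary C w x → x ∉ C ∧ ∃ T ∈ w.support, x ∈ T.inner ∧
    ∀ F ∈ w.support, F.carrier ⊆ T.carrier) ∧
  (∀ᵐ x : E, x ∉ C → ∃ F, IsFlag C F ∧ x ∈ openSimplex F)

/-- A4: the squeezing map is a homeomorphism, locally Lipschitz off `C`, and preserves cells. -/
def A4Statement : Prop := ∀ C : Set E, IsClosed C → ∀ ε : Cell → ℝ, (∀ F, 0 < ε F) →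
  ∃ s : E ≃ₜ E, (∀ x, s x = sq C ε x) ∧ LocLip s Cᶜ ∧
    ∀ F, IsC C F → ∀ x ∈ F.carrier, s x ∈ F.carrier

/-- A5: geometry of the flags. -/
def A5Statement : Prop := ∀ C : Set E, IsClosed C →
  (∀ F, IsFlag C F → IsOpen (openSimplex F) ∧ openSimplex F ⊆ (F 5).carrier ∧
    (∀ x ∈ openSimplex F, (∀ k, 0 < wt F x k) ∧ ∑ k, wt F x k = 1 ∧ comb F (wt F x) = x) ∧
    (∀ x ∈ openSimplex F, ∀ y ∈ openSimplex F, ∀ k,
      |wt F x k - wt F y k| * (F 5).len ≤ 128 * ‖x - y‖) ∧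
    volume (F 2).thick ≤ 2 ^ 20 * volume (openSimplex F) ∧
    (∀ (ε : Cell → ℝ), (∀ G, 0 < ε G) → ∀ x ∈ openSimplex F, sq C ε x =
      (∑ k, ε (F k) * wt F x k)⁻¹ • ∑ k, (ε (F k) * wt F x k) • (F k).center)) ∧
  (∀ F F', IsFlag C F → IsFlag C F' → F ≠ F' → Disjoint (openSimplex F) (openSimplex F')) ∧
  (∀ G : Cell, {F : Fin 6 → Cell | IsFlag C F ∧ ∃ k, F k = G}.Finite)

/-- A6: the change of variables inequality for the projection of an open simplex to its two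
dimensional cell. -/
def A6Statement : Prop := ∀ C : Set E, IsClosed C → ∀ F, IsFlag C F →
  (∀ g : E → ℝ≥0∞, Measurable g →
    ∫⁻ x in openSimplex F, g (aa F x) / ENNReal.ofReal (mu F x) ^ 2 ≤
      8 * ∫⁻ y in (F 2).thick, g ((F 2).proj y)) ∧
  ∀ B : Set E, (∀ᵐ y : E, y ∈ (F 2).thick → (F 2).proj y ∉ B) →
    ∀ᵐ x : E, x ∈ openSimplex F → aa F x ∉ B

/-- A7: the energy on one flag, as the weights of the cells of dimension `≥ 3` go to zero. -/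
def A7Statement : Prop := ∃ A : ℝ≥0, ∀ C : Set E, IsClosed C → ∀ F, IsFlag C F →
  ∀ G : E → E, LocLip G Cᶜ → ∀ M : E → ℝ≥0∞, Measurable M →
    (∀ᵐ x : E, x ∈ (F 2).thick → TanAt G (F 2) ((F 2).proj x) (M ((F 2).proj x))) →
    ∀ η : ℝ≥0∞, η ≠ 0 → ∃ e : ℝ, 0 < e ∧ ∀ ε : Fin 6 → ℝ, (∀ k, 0 < ε k ∧ ε k ≤ 1) →
      ε 0 = 1 → ε 1 = 1 → ε 2 = 1 → ε 3 ≤ e → ε 4 ≤ e → ε 5 ≤ e → ∀ s : E → E,
        (∀ x ∈ openSimplex F, s x =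
          (∑ k, ε k * wt F x k)⁻¹ • ∑ k, (ε k * wt F x k) • (F k).center) →
        ∫⁻ x in openSimplex F, ‖fderiv ℝ (G ∘ s) x‖ₑ ^ 2 ≤
          A * (∫⁻ y in (F 2).thick, M ((F 2).proj y) ^ 2) + η

/-- A8 (assembly of part A): the squeezing theorem. -/
def SqueezeStatement : Prop := ∀ (C : Set E) (R : ℝ) (G : E → E), IsCompact C →
  C ⊆ closedBall 0 (R - 3) → LocLip G Cᶜ → TanBound C R G →
  ∃ s : E ≃ₜ E, (∀ x ∈ C, s x = x) ∧ LocLip s Cᶜ ∧ (∀ x, R + 1 < ‖x‖ → s x = x) ∧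
    ∫⁻ x in closedBall 0 (R - 1) \ C, ‖fderiv ℝ (G ∘ s) x‖ₑ ^ 2 < ⊤

/-! ### Part B: the orientation reversing homeomorphism -/

/-- B1: a homeomorphism carrying a Cantor set of positive measure to a thin one. -/
def B1Statement : Prop := ∃ (C : Set E) (κ : E ≃ₜ E), IsCompact C ∧ 0 < volume C ∧
  C ⊆ closedBall 0 1 ∧ (∀ x, 1 ≤ ‖x‖ → κ x = x) ∧ LocLip κ Cᶜ ∧ LocLip κ.symm (κ '' C)ᶜ ∧
  LocSel κ Cᶜ ∧ Boxed 32 (κ '' C)

/-- B2: general position of the direction `t`. -/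
def B2Statement : Prop := ∀ (C : Set E) (κ : E ≃ₜ E), IsCompact C → LocLip κ Cᶜ →
  LocLip κ.symm (κ '' C)ᶜ → LocSel κ Cᶜ → Boxed 32 (κ '' C) → ∀ R : ℝ,
    ∃ t : Z, Generic (KK C R) C fun x => psi t (κ x)

/-- B3: the multiple points. -/
def B3Statement : Prop := ∀ (K C : Set E) (Y : E ≃ₜ Z × ℝ), IsCompact K → IsCompact C →
  C ⊆ K → C.Nonempty → Generic K C Y →
    (Mult K Y).Countable ∧
    (∀ o ∈ Mult K Y, o ∉ (fun p => (Y p).1) '' C) ∧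
    (∀ θ > 0, {o ∈ Mult K Y | θ ≤ infDist o ((fun p => (Y p).1) '' C)}.Finite) ∧
    (∀ o ∈ Mult K Y, {p ∈ K | (Y p).1 = o}.Finite) ∧
    ∃ (ρ : Z → ℝ) (τ : Z → ℝ), (∀ o ∈ Mult K Y, 0 < ρ o ∧
        ρ o ≤ infDist o ((fun p => (Y p).1) '' C) / 2 ∧ ∃ p ∈ K, Y p = (o, τ o)) ∧
      ∀ o ∈ Mult K Y, ∀ o' ∈ Mult K Y, o ≠ o' →
        Disjoint (closedBall o (ρ o)) (closedBall o' (ρ o'))

/-- B4: the height function with spikes at the multiple points. -/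
def B4Statement : Prop := ∀ (K C : Set E) (Y : E ≃ₜ Z × ℝ), IsCompact K → IsCompact C →
  C ⊆ K → C.Nonempty → Generic K C Y → LocLip Y Cᶜ → ∀ (cap : CapData) (ρ τ : Z → ℝ),
    (∀ o ∈ Mult K Y, 0 < ρ o ∧
        ρ o ≤ infDist o ((fun p => (Y p).1) '' C) / 2 ∧ ∃ p ∈ K, Y p = (o, τ o)) →
    (∀ o ∈ Mult K Y, ∀ o' ∈ Mult K Y, o ≠ o' →
        Disjoint (closedBall o (ρ o)) (closedBall o' (ρ o'))) →
    ∀ n : Z → ℕ, (∀ o ∈ Mult K Y, cap.r (n o) ≤ ρ o) →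
    ∃ h0 : Z → ℝ,
      (∀ p ∈ K, (∀ o ∈ Mult K Y, (Y p).1 ∉ closedBall o (cap.r (n o))) → h0 (Y p).1 = (Y p).2) ∧
      (∀ p ∈ K, ∀ o ∈ Mult K Y, (Y p).1 ∈ closedBall o (cap.r (n o)) → h0 (Y p).1 =
        (1 - cap.φ (n o) (dist (Y p).1 o)) * (Y p).2 + cap.φ (n o) (dist (Y p).1 o) * τ o) ∧
      ContinuousOn h0 ((fun p => (Y p).1) '' K) ∧
      ∀ z ∈ ((fun p => (Y p).1) '' K) \ ((fun p => (Y p).1) '' C), ∃ r > 0, ∃ L : ℝ≥0,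
        LipschitzOnWith L h0 (((fun p => (Y p).1) '' K) ∩ ball z r)

/-- B5: the extension of the height function, as a series. -/
def B5Statement : Prop := ∀ (S P : Set Z) (h0 : Z → ℝ), IsCompact S → IsCompact P →
  P.Nonempty → P ⊆ S → ContinuousOn h0 S →
  (∀ z ∈ S \ P, ∃ r > 0, ∃ L : ℝ≥0, LipschitzOnWith L h0 (S ∩ ball z r)) →
  ∃ M : ℝ, 0 < M ∧ ∀ θ : ℕ → ℝ, (∀ k, 0 < θ k) → ∃ (h : Z → ℝ) (d : ℕ → Z → ℝ),
    (∀ z ∈ S, h z = h0 z) ∧ (∀ k, ∃ L : ℝ≥0, LipschitzWith L (d k)) ∧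
    (∀ k z, |d k z| ≤ M * (1 / 4) ^ k) ∧
    (∀ k z, 1 ≤ k → θ k ≤ infDist z P → d k z = 0) ∧ (∀ z, HasSum (fun k => d k z) (h z)) ∧
    (∃ R, ∀ k z, R ≤ ‖z‖ → d k z = 0) ∧ ∀ z₀ ∈ S \ P, TanExt S h0 h z₀

/-- B6: the mirror homeomorphism. -/
def B6Statement : Prop := ∀ (P : Set Z) (h : Z → ℝ) (d : ℕ → Z → ℝ) (M R : ℝ) (θ : ℕ → ℝ),
  IsCompact P → P.Nonempty → 0 < M → Tendsto θ atTop (𝓝 0) →
  (∀ k, ∃ L : ℝ≥0, LipschitzWith L (d k)) → (∀ k z, |d k z| ≤ M * (1 / 4) ^ k) →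
  (∀ k z, 1 ≤ k → θ k ≤ infDist z P → d k z = 0) → (∀ z, HasSum (fun k => d k z) (h z)) →
  (∀ k z, R ≤ ‖z‖ → d k z = 0) →
  ∃ G : Z × ℝ ≃ₜ Z × ℝ, (∀ z, G (z, h z) = (z, h z)) ∧
    LocLip G {y | y.1 ∈ P ∧ y.2 = h y.1}ᶜ ∧
    (∀ (z₀ : Z) (s₀ : ℝ), z₀ ∉ P →
      (∀ k, (∀ᶠ z in 𝓝 z₀, d k z = 0) ∨ |s₀ - h z₀| < 8 * M * (1 / 2) ^ k) →
      ∀ᶠ y in 𝓝 (z₀, s₀), G y = (y.1, 2 * h y.1 - y.2)) ∧
    ∃ R' : ℝ, ∀ y, R' ≤ ‖y‖ → G y = (y.1, -y.2)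

/-- B7: cut-off functions. -/
def B7Statement : Prop := Nonempty CapData

/-- B8: continuous selections of finitely many affine maps are equivariant under translations
near almost every point of a two dimensional cell. -/
def B8Statement : Prop := ∀ (F : Cell) (Y : E → Z × ℝ) (U : Set E), IsOpen U → ContinuousOn Y U →
  LocSel Y U → ∀ᵐ x : E, F.proj x ∈ U → ∃ δ > 0, ∃ L : E →L[ℝ] Z × ℝ,
    ∀ z ∈ ball (F.proj x) δ, ∀ τ ∈ F.dir, z + τ ∈ ball (F.proj x) δ → Y (z + τ) = Y z + L τ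

/-- B9: near almost every point of a two dimensional cell, the projection of `K` is flat. -/
def B9Statement : Prop := ∀ (C : Set E) (R : ℝ) (Y : E ≃ₜ Z × ℝ), IsCompact C → C.Nonempty →
  Generic (KK C R) C Y → LocLip Y Cᶜ → LocSel Y Cᶜ → ∀ F ∈ K2 C R, ∀ᵐ x : E, x ∈ F.thick →
    ∃ L : E →L[ℝ] Z × ℝ, ∃ δ > 0,
      (∀ z ∈ ball (F.proj x) δ, ∀ τ ∈ F.dir, z + τ ∈ ball (F.proj x) δ → Y (z + τ) = Y z + L τ) ∧
      (∀ v ∈ F.dir, δ * ‖v‖ ≤ ‖(L v).1‖) ∧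
      ∃ δ' > 0, (∀ q ∈ KK C R, (Y q).1 ∈ ball (Y (F.proj x)).1 δ' →
          q ∈ ball (F.proj x) δ ∧ q - F.proj x ∈ F.dir) ∧
        ∀ z ∈ ball (Y (F.proj x)).1 δ', z ∈ (fun p => (Y p).1) '' (KK C R) ↔
          z - (Y (F.proj x)).1 ∈ F.dir.map ((ContinuousLinearMap.fst ℝ Z ℝ).comp L : E →ₗ[ℝ] Z)

/-- B10: the spikes have small energy. -/
def B10Statement : Prop := ∀ (C : Set E) (R : ℝ) (Y : E ≃ₜ Z × ℝ) (cap : CapData), IsCompact C →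
  Generic (KK C R) C Y → LocLip Y Cᶜ → ∀ F ∈ K2 C R, ∀ o ∈ Mult (KK C R) Y, ∀ A : ℝ,
    Tendsto (fun n => ∫⁻ x in F.thick,
      {x | dist (Y (F.proj x)).1 o ≤ cap.r n}.indicator
        (fun x => ENNReal.ofReal (A * (1 + cap.w (dist (Y (F.proj x)).1 o / 2))) ^ 2) x)
      atTop (𝓝 0)

/-- B11 (assembly of part B). -/
def GStatement : Prop := ∃ C : Set E, IsCompact C ∧ C ⊆ closedBall 0 1 ∧ 0 < volume C ∧
  ∀ R : ℝ, ∃ G : E ≃ₜ E, (∀ x ∈ C, G x = x) ∧ LocLip G Cᶜ ∧ TanBound C R G ∧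
    ∃ (R₁ : ℝ) (ρ : E →L[ℝ] E), ρ.det < 0 ∧ ∀ x, R₁ < ‖x‖ → G x = ρ x

end Pool.Agent.Helper27Sob
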