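import Pool.Agent.Helper27_Sob.LocalExt
import Pool.Agent.Helper27_Sob.Statements

/-!
B11: assembly of part B.
-/

set_option autoImplicit false

open Set Filter Topology Metric MeasureTheory
open scoped ENNReal NNReal

namespace Pool.Agent.Helper27Sob

theorem Cell.len_pos (F : Cell) : 0 < F.len := by
  unfold Cell.len ell
  positivity

theorem Cell.proj_mem_carrier (F : Cell) {x : E} (hx : x ∈ F.thick) : F.proj x ∈ F.carrier := by
  intro j
  have h := (dist_pi_le_iff (by have := F.len_pos; positivity)).1 (mem_closedBall.1 hx) j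
  rw [Real.dist_eq] at h
  unfold Cell.proj
  split_ifs with hj
  · simpa [hj] using h
  · simp

theorem Cell.continuous_proj (F : Cell) : Continuous F.proj := by
  refine continuous_pi fun j => ?_
  unfold Cell.proj
  split_ifs
  · exact continuous_apply j
  · exact continuous_const

theorem Cell.volume_thick_ne_top (F : Cell) : volume F.thick ≠ ⊤ :=
  (isCompact_closedBall _ _).measure_lt_top.ne

theorem Cell.volume_thick_pos (F : Cell) : 0 < volume F.thick :=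
  measure_closedBall_pos _ _ (by have := F.len_pos; positivity)

/-- uniform `g2` constants on compact sets -/
theorem exists_unif_g2 {K K' : Set E} {Y : E → Z × ℝ} (hK' : IsCompact K')
    (h : ∀ p₀ ∈ K', ∃ r > 0, ∃ L : ℝ, ∀ p ∈ K ∩ ball p₀ r, ∀ q ∈ K ∩ ball p₀ r,
      ‖p - q‖ ≤ L * ‖(Y p).1 - (Y q).1‖) :
    ∃ L : ℝ, 0 ≤ L ∧ ∀ p₀ ∈ K', ∃ r > 0, ∀ p ∈ K ∩ ball p₀ r, ∀ q ∈ K ∩ ball p₀ r,
      ‖p - q‖ ≤ L * ‖(Y p).1 - (Y q).1‖ := by
  choose! r hr L hL using h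
  obtain ⟨t, ht, hcov⟩ := hK'.elim_nhds_subcover (fun x => ball x (r x))
    (fun x hx => ball_mem_nhds x (hr x hx))
  refine ⟨∑ x ∈ t, |L x|, Finset.sum_nonneg fun _ _ => abs_nonneg _, fun x hx => ?_⟩
  obtain ⟨y, hyt, hxy⟩ : ∃ y ∈ t, x ∈ ball y (r y) := by simpa using hcov hx
  refine ⟨r y - dist x y, by rw [mem_ball] at hxy; linarith, fun p hp q hq => ?_⟩
  have hsub' : ball x (r y - dist x y) ⊆ ball y (r y) := ball_subset_ball' (by linarith)
  refine (hL y (ht y hyt) p ⟨hp.1, hsub' hp.2⟩ q ⟨hq.1, hsub' hq.2⟩).trans ?_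
  gcongr
  exact (le_abs_self _).trans (Finset.single_le_sum (f := fun x => |L x|)
    (fun _ _ => abs_nonneg _) hyt)

/-- local finiteness of the balls around the multiple points -/
theorem exists_ball_avoid {O P : Set Z} (hPc : IsClosed P) (hPne : P.Nonempty)
    (hfin : ∀ θ > 0, {o ∈ O | θ ≤ infDist o P}.Finite) {ρ r : Z → ℝ}
    (hρ : ∀ o ∈ O, ρ o ≤ infDist o P / 2) (hr : ∀ o ∈ O, r o ≤ ρ o) {z₀ : Z} (hz₀ : z₀ ∉ P)
    {Q : Set Z} (hQ : Q ⊆ O) (hav : ∀ o ∈ Q, z₀ ∉ closedBall o (r o)) :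
    ∃ δ > 0, ∀ z ∈ ball z₀ δ, ∀ o ∈ Q, z ∉ closedBall o (r o) := by
  have hD : 0 < infDist z₀ P := (hPc.notMem_iff_infDist_pos hPne).1 hz₀
  set D := infDist z₀ P with hDdef
  have hf : {o ∈ O | D / 2 ≤ infDist o P}.Finite := hfin (D / 2) (by positivity)
  have hf' : ({o ∈ O | D / 2 ≤ infDist o P} ∩ Q).Finite := hf.subset inter_subset_left
  have hcl : IsClosed (⋃ o ∈ ({o ∈ O | D / 2 ≤ infDist o P} ∩ Q), closedBall o (r o)) :=
    hf'.isClosed_biUnion fun _ _ => isClosed_closedBall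
  have hz : z₀ ∈ (⋃ o ∈ ({o ∈ O | D / 2 ≤ infDist o P} ∩ Q), closedBall o (r o))ᶜ := by
    rw [mem_compl_iff, mem_iUnion₂]
    rintro ⟨o, ho, hzo⟩
    exact hav o ho.2 hzo
  obtain ⟨δ₁, hδ₁, hsub⟩ := Metric.isOpen_iff.1 hcl.isOpen_compl z₀ hz
  refine ⟨min δ₁ (D / 4), lt_min hδ₁ (by positivity), fun z hz o ho hzo => ?_⟩
  have hz1 : z ∈ ball z₀ (D / 4) := ball_subset_ball (min_le_right _ _) hz
  have h1 : D ≤ infDist z P + dist z₀ z := infDist_le_infDist_add_dist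
  have h2 : infDist z P ≤ infDist o P + dist z o := infDist_le_infDist_add_dist
  rw [mem_ball, dist_comm] at hz1
  rw [mem_closedBall] at hzo
  have h3 := hρ o (hQ ho)
  have h4 := hr o (hQ ho)
  have h5 : D / 2 ≤ infDist o P := by linarith
  have h6 := hsub (ball_subset_ball (min_le_left _ _) hz)
  exact h6 (mem_iUnion₂.2 ⟨o, ⟨⟨hQ ho, h5⟩, ho⟩, mem_closedBall.2 hzo⟩)

theorem exists_theta {K C : Set E} {Y : E ≃ₜ Z × ℝ} (hK : IsCompact K) (hC : IsCompact C)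
    (hne : C.Nonempty) (hg1 : ∀ c ∈ C, ∀ p ∈ K, (Y p).1 = (Y c).1 → p = c) {h0 : Z → ℝ}
    (hcont : ContinuousOn h0 ((fun p => (Y p).1) '' K))
    (hC0 : ∀ c ∈ C, h0 (Y c).1 = (Y c).2) (a : ℕ → ℝ) (ha : ∀ k, 0 < a k) :
    ∃ θ : ℕ → ℝ, (∀ k, 0 < θ k) ∧ Tendsto θ atTop (𝓝 0) ∧
      ∀ k, ∀ q ∈ K, a k ≤ |(Y q).2 - h0 (Y q).1| →
        θ k < infDist (Y q).1 ((fun p => (Y p).1) '' C) := by
  have hYc : Continuous fun p => (Y p).1 := continuous_fst.comp Y.continuous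
  have hYc2 : Continuous fun p => (Y p).2 := continuous_snd.comp Y.continuous
  have hPc : IsCompact ((fun p => (Y p).1) '' C) := hC.image hYc
  have hgap : ContinuousOn (fun q => |(Y q).2 - h0 (Y q).1|) K := by
    refine (hYc2.continuousOn.sub ?_).abs
    exact hcont.comp hYc.continuousOn (mapsTo_image _ _)
  have key : ∀ k : ℕ, ∃ θ : ℝ, 0 < θ ∧ θ ≤ 1 / ((k : ℝ) + 1) ∧ ∀ q ∈ K,
      a k ≤ |(Y q).2 - h0 (Y q).1| → θ < infDist (Y q).1 ((fun p => (Y p).1) '' C) := by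
    intro k
    set Γ := K ∩ (fun q => |(Y q).2 - h0 (Y q).1|) ⁻¹' (Ici (a k)) with hΓ
    have hΓc : IsCompact Γ :=
      hK.of_isClosed_subset (hgap.preimage_isClosed_of_isClosed hK.isClosed isClosed_Ici)
        inter_subset_left
    rcases Γ.eq_empty_or_nonempty with hemp | hnon
    · refine ⟨1 / ((k : ℝ) + 1), by positivity, le_rfl, fun q hq hqa => ?_⟩
      have : q ∈ Γ := ⟨hq, hqa⟩
      rw [hemp] at this
      exact absurd this (notMem_empty q)
    · have hcd : ContinuousOn (fun q => infDist (Y q).1 ((fun p => (Y p).1) '' C)) Γ :=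
        ((continuous_infDist_pt _).comp hYc).continuousOn
      obtain ⟨q₀, hq₀, hmin⟩ := hΓc.exists_isMinOn hnon hcd
      have hpos : 0 < infDist (Y q₀).1 ((fun p => (Y p).1) '' C) := by
        refine (hPc.isClosed.notMem_iff_infDist_pos (hne.image _)).1 ?_
        rintro ⟨c, hc, hcq⟩
        have h1 : q₀ = c := hg1 c hc q₀ hq₀.1 hcq.symm
        have h2 : a k ≤ |(Y q₀).2 - h0 (Y q₀).1| := hq₀.2
        rw [h1, hC0 c hc, sub_self, abs_zero] at h2
        exact absurd (ha k) (not_lt.2 h2)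
      refine ⟨min (infDist (Y q₀).1 ((fun p => (Y p).1) '' C) / 2) (1 / ((k : ℝ) + 1)),
        lt_min (half_pos hpos) (by positivity), min_le_right _ _, fun q hq hqa => ?_⟩
      have h3 := hmin (show q ∈ Γ from ⟨hq, hqa⟩)
      simp only [mem_ofPred_eq] at h3
      exact lt_of_le_of_lt (min_le_left _ _) (lt_of_lt_of_le (half_lt_self hpos) h3)
  choose θ h1 h2 h3 using key
  refine ⟨θ, h1, ?_, h3⟩
  exact squeeze_zero (fun k => (h1 k).le) h2 tendsto_one_div_add_atTop_nhds_zero_nat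

/-- The heart of part B: the mirror homeomorphism in the coordinates `Y`. -/
theorem exists_mirror (a1 : A1Statement) (b3 : B3Statement) (b4 : B4Statement)
    (b5 : B5Statement) (b6 : B6Statement) (b7 : B7Statement) (b9 : B9Statement)
    (b10 : B10Statement) (C : Set E) (R : ℝ) (Y : E ≃ₜ Z × ℝ) (hC : IsCompact C)
    (hne : C.Nonempty) (hgen : Generic (KK C R) C Y) (hY : LocLip Y Cᶜ)
    (hYs : LocLip Y.symm (Y '' C)ᶜ) (hsel : LocSel Y Cᶜ) :
    ∃ Gt : Z × ℝ ≃ₜ Z × ℝ, (∀ c ∈ C, Gt (Y c) = Y c) ∧ LocLip Gt (Y '' C)ᶜ ∧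
      TanBound C R (Y.symm ∘ Gt ∘ Y) ∧ ∃ R' : ℝ, ∀ y, R' ≤ ‖y‖ → Gt y = (y.1, -y.2) := by
  obtain ⟨-, -, -, hfar, hfinC, hKc⟩ := a1 C hC.isClosed
  have hK : IsCompact (KK C R) := hKc hC R
  have hCK : C ⊆ KK C R := subset_union_left
  have hFK : ∀ F ∈ K2 C R, F.carrier ⊆ KK C R := fun F hF =>
    (subset_biUnion_of_mem (u := fun F : Cell => F.carrier) hF).trans subset_union_right
  have hFC : ∀ F ∈ K2 C R, ∀ p ∈ F.carrier, p ∉ C := by
    intro F hF p hp hpC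
    have := hfar F hF.1 p hp p hpC
    rw [sub_self, norm_zero] at this
    linarith [F.len_pos]
  obtain ⟨cap⟩ := b7
  obtain ⟨hOc, hOP, hOfin, hfib, ρ, τ, hρτ, hdisj⟩ := b3 (KK C R) C Y hK hC hCK hne hgen
  set K := KK C R with hKdef
  set O := Mult K Y with hO
  have hYc : Continuous fun p => (Y p).1 := continuous_fst.comp Y.continuous
  have hYc2 : Continuous fun p => (Y p).2 := continuous_snd.comp Y.continuous
  have hPc : IsCompact ((fun p => (Y p).1) '' C) := hC.image hYc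
  have hSc : IsCompact ((fun p => (Y p).1) '' K) := hK.image hYc
  have hPne : ((fun p => (Y p).1) '' C).Nonempty := hne.image _
  have hPS : ((fun p => (Y p).1) '' C) ⊆ ((fun p => (Y p).1) '' K) := image_mono hCK
  -- points over `P`
  have hnP : ∀ p ∈ K, p ∉ C → (Y p).1 ∉ (fun p => (Y p).1) '' C := by
    rintro p hp hpC ⟨c, hc, hcp⟩
    exact hpC ((hgen.g1 c hc p hp hcp.symm) ▸ hc)
  -- bound of the heights
  obtain ⟨T, hT⟩ : ∃ T : ℝ, ∀ q ∈ K, |(Y q).2| ≤ T := by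
    obtain ⟨T, hT⟩ := (hK.image hYc2).isBounded.exists_norm_le
    exact ⟨T, fun q hq => hT _ ⟨q, hq, rfl⟩⟩
  have hT0 : 0 ≤ T := by
    obtain ⟨c, hc⟩ := hne
    exact (abs_nonneg _).trans (hT c (hCK hc))
  have hτT : ∀ o ∈ O, |τ o| ≤ T := by
    intro o ho
    obtain ⟨-, -, p, hp, hpo⟩ := hρτ o ho
    have := hT p hp
    rwa [hpo] at this
  -- constants at the multiple points
  have hconst : ∀ o ∈ O, ∃ Λ₁ Λ₂ : ℝ≥0, ∃ Λ₃ : ℝ, 0 ≤ Λ₃ ∧
      (∀ p ∈ K, dist (Y p).1 o ≤ ρ o → ∃ r > 0, LipschitzOnWith Λ₁ Y (ball p r)) ∧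
      (∀ y : Z × ℝ, dist y.1 o ≤ ρ o → |y.2| ≤ 3 * T →
        ∃ r > 0, LipschitzOnWith Λ₂ Y.symm (ball y r)) ∧
      (∀ p ∈ K, dist (Y p).1 o ≤ ρ o → ∃ r > 0, ∀ q ∈ K ∩ ball p r, ∀ q' ∈ K ∩ ball p r,
        ‖q - q'‖ ≤ Λ₃ * ‖(Y q).1 - (Y q').1‖) := by
    intro o ho
    obtain ⟨h1, h2, -⟩ := hρτ o ho
    have hsep : ∀ z ∈ closedBall o (ρ o), z ∉ (fun p => (Y p).1) '' C := by
      intro z hz hzP
      have h3 : infDist o ((fun p => (Y p).1) '' C) ≤ dist o z := infDist_le_dist_of_mem hzP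
      rw [mem_closedBall, dist_comm] at hz
      linarith
    have hKo : IsCompact (K ∩ {p | dist (Y p).1 o ≤ ρ o}) :=
      hK.inter_right (isClosed_le (hYc.dist continuous_const) continuous_const)
    have hKoC : K ∩ {p | dist (Y p).1 o ≤ ρ o} ⊆ Cᶜ := by
      rintro p ⟨-, hp⟩ hpC
      exact hsep (Y p).1 (mem_closedBall.2 hp) ⟨p, hpC, rfl⟩
    obtain ⟨Λ₁, hΛ₁⟩ := hY.exists_unif hKo hKoC
    obtain ⟨Λ₃, h30, hΛ₃⟩ := exists_unif_g2 (K := K) (Y := Y) hKo
      (fun p hp => hgen.g2 p ⟨hp.1, hKoC hp⟩)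
    have hbox : IsCompact (closedBall o (ρ o) ×ˢ closedBall (0 : ℝ) (3 * T)) :=
      (isCompact_closedBall _ _).prod (isCompact_closedBall _ _)
    obtain ⟨Λ₂, hΛ₂⟩ := hYs.exists_unif hbox (by
      rintro y ⟨hy, -⟩ ⟨c, hc, rfl⟩
      exact hsep _ hy ⟨c, hc, rfl⟩)
    refine ⟨Λ₁, Λ₂, Λ₃, h30, fun p hp hpo => hΛ₁ p ⟨hp, hpo⟩, fun y hy hy2 => hΛ₂ y ⟨?_, ?_⟩,
      fun p hp hpo => hΛ₃ p ⟨hp, hpo⟩⟩
    · exact mem_closedBall.2 hy
    · rw [mem_closedBall, dist_zero_right]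
      exact hy2
  choose! Λ₁ Λ₂ Λ₃ hΛ30 hΛ₁ hΛ₂ hΛ₃ using hconst
  set A : Z → ℝ := fun o => Λ₁ o * Λ₂ o * (2 * (Λ₁ o * Λ₃ o) + 4 * T + 3) with hA
  -- choice of the radii
  have hsum : ∃ ε' : O → ℝ≥0, (∀ o, 0 < ε' o) ∧ ∑' o, (ε' o : ℝ≥0∞) < 1 := by
    have : Countable O := hOc.to_subtype
    obtain ⟨ε', h1, h2⟩ := ENNReal.exists_pos_sum_of_countable (ε := 1) one_ne_zero O
    exact ⟨ε', h1, h2⟩
  obtain ⟨ε', hε', hε's⟩ := hsum
  have hchoose : ∀ o : O, ∃ n : ℕ, cap.r n ≤ ρ o ∧ ∀ F ∈ K2 C R,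
      ∫⁻ x in F.thick, {x | dist (Y (F.proj x)).1 o ≤ cap.r n}.indicator
        (fun x => ENNReal.ofReal (A o * (1 + cap.w (dist (Y (F.proj x)).1 o / 2))) ^ 2) x ≤
        ε' o * volume F.thick := by
    intro o
    obtain ⟨h1, h2, -⟩ := hρτ o o.2
    have hKo : IsCompact (K ∩ {p | dist (Y p).1 o ≤ ρ o}) :=
      hK.inter_right (isClosed_le (hYc.dist continuous_const) continuous_const)
    have hKoC : Disjoint (K ∩ {p | dist (Y p).1 o ≤ ρ o}) C := by
      rw [Set.disjoint_left]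
      rintro p ⟨-, hp⟩ hpC
      have h3 : infDist (o : Z) ((fun p => (Y p).1) '' C) ≤ dist (o : Z) (Y p).1 :=
        infDist_le_dist_of_mem ⟨p, hpC, rfl⟩
      rw [mem_ofPred_eq, dist_comm] at hp
      linarith
    have hfin := hfinC _ hKo hKoC
    have hev : ∀ᶠ n in atTop, ∀ F ∈ {F | IsC C F ∧
        (F.carrier ∩ (K ∩ {p | dist (Y p).1 o ≤ ρ o})).Nonempty}, F ∈ K2 C R →
        ∫⁻ x in F.thick, {x | dist (Y (F.proj x)).1 o ≤ cap.r n}.indicator
        (fun x => ENNReal.ofReal (A o * (1 + cap.w (dist (Y (F.proj x)).1 o / 2))) ^ 2) x ≤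
        ε' o * volume F.thick := by
      rw [Filter.eventually_all_finite hfin]
      intro F _
      by_cases hF : F ∈ K2 C R
      · have hlim := b10 C R Y cap hC hgen hY F hF o o.2 (A o)
        have hpos : 0 < (ε' o : ℝ≥0∞) * volume F.thick :=
          ENNReal.mul_pos (by exact_mod_cast (hε' o).ne') F.volume_thick_pos.ne'
        filter_upwards [hlim.eventually (gt_mem_nhds hpos)] with n hn _
        exact hn.le
      · exact Eventually.of_forall fun n h => absurd h hF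
    have hev2 : ∀ᶠ n in atTop, cap.r n ≤ ρ o := by
      filter_upwards [cap.r_lim.eventually (gt_mem_nhds h1)] with n hn
      exact hn.le
    obtain ⟨n, hn1, hn2⟩ := (hev.and hev2).exists
    refine ⟨n, hn2, fun F hF => ?_⟩
    by_cases hFo : (F.carrier ∩ (K ∩ {p | dist (Y p).1 o ≤ ρ o})).Nonempty
    · exact hn1 F ⟨hF.1, hFo⟩ hF
    · have hz : ∫⁻ x in F.thick, {x | dist (Y (F.proj x)).1 o ≤ cap.r n}.indicator
          (fun x => ENNReal.ofReal (A o * (1 + cap.w (dist (Y (F.proj x)).1 o / 2))) ^ 2) x =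
          ∫⁻ x in F.thick, 0 := by
        refine setLIntegral_congr_fun isClosed_closedBall.measurableSet fun x hx => ?_
        refine indicator_of_notMem (fun hmem => hFo ?_) _
        exact ⟨F.proj x, F.proj_mem_carrier hx, hFK F hF (F.proj_mem_carrier hx),
          le_trans hmem hn2⟩
      rw [hz, lintegral_zero]
      exact zero_le
  choose n0 hn0 hn0' using hchoose
  classical
  let n : Z → ℕ := fun o => if h : o ∈ O then n0 ⟨o, h⟩ else 0
  have hn : ∀ o (h : o ∈ O), n o = n0 ⟨o, h⟩ := fun o h => dif_pos h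
  have hnρ : ∀ o ∈ O, cap.r (n o) ≤ ρ o := fun o ho => by rw [hn o ho]; exact hn0 ⟨o, ho⟩
  -- the height function
  obtain ⟨h0, hh1, hh2, hh3, hh4⟩ := b4 K C Y hK hC hCK hne hgen hY cap ρ τ hρτ hdisj n hnρ
  have hrP : ∀ o ∈ O, ∀ z ∈ closedBall o (ρ o), z ∉ (fun p => (Y p).1) '' C := by
    intro o ho z hz hzP
    obtain ⟨h1, h2, -⟩ := hρτ o ho
    have h3 : infDist o ((fun p => (Y p).1) '' C) ≤ dist o z := infDist_le_dist_of_mem hzP
    rw [mem_closedBall, dist_comm] at hz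
    linarith
  have hC0 : ∀ c ∈ C, h0 (Y c).1 = (Y c).2 := by
    intro c hc
    refine hh1 c (hCK hc) fun o ho hcb => ?_
    exact hrP o ho _ (closedBall_subset_closedBall (hnρ o ho) hcb) ⟨c, hc, rfl⟩
  have hh0T : ∀ q ∈ K, |h0 (Y q).1| ≤ T := by
    intro q hq
    by_cases hcase : ∀ o ∈ O, (Y q).1 ∉ closedBall o (cap.r (n o))
    · rw [hh1 q hq hcase]
      exact hT q hq
    · push Not at hcase
      obtain ⟨o, ho, hqo⟩ := hcase
      rw [hh2 q hq o ho hqo]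
      have hφ := cap.φ_mem (n o) (dist (Y q).1 o)
      have h1 := abs_le.1 (hT q hq)
      have h2 := abs_le.1 (hτT o ho)
      rw [abs_le]
      constructor
      · nlinarith [hφ.1, hφ.2]
      · nlinarith [hφ.1, hφ.2]
  obtain ⟨M, hM, hM2⟩ := b5 _ _ h0 hSc hPc hPne hPS hh3 hh4
  obtain ⟨θ, hθ, hθ0, hθgap⟩ := exists_theta hK hC hne hgen.g1 hh3 hC0
    (fun k => 8 * (max M (T + 1)) * (1 / 2) ^ k) (fun k => by positivity)
  obtain ⟨h, d, hhS, hdL, hdM, hdθ, hsumh, ⟨R₁, hR₁⟩, hTan⟩ := hM2 θ hθ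
  set M' := max M (T + 1) with hM'
  have hM'pos : 0 < M' := lt_of_lt_of_le hM (le_max_left _ _)
  obtain ⟨Gt, hG1, hG2, hG3, R', hR'⟩ := b6 _ h d M' R₁ θ hPc hPne hM'pos hθ0 hdL
    (fun k z => (hdM k z).trans (by gcongr; exact le_max_left _ _)) hdθ hsumh hR₁
  have hYP : ∀ y : Z × ℝ, y ∉ Y '' C →
      y ∈ {y : Z × ℝ | y.1 ∈ (fun p => (Y p).1) '' C ∧ y.2 = h y.1}ᶜ := by
    rintro y hy ⟨⟨c, hc, hcy⟩, hy2⟩
    refine hy ⟨c, hc, Prod.ext hcy ?_⟩
    have hcy' : (Y c).1 = y.1 := hcy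
    rw [hy2, ← hcy', hhS _ ⟨c, hCK hc, rfl⟩, hC0 c hc]
  have hGC : ∀ c ∈ C, Gt (Y c) = Y c := by
    intro c hc
    have h1 := hG1 (Y c).1
    rwa [hhS _ ⟨c, hCK hc, rfl⟩, hC0 c hc] at h1
  refine ⟨Gt, hGC, fun y hy => hG2 y (hYP y hy), ?_, R', hR'⟩
  -- the function `M`
  let J : O → E → ℝ≥0∞ := fun o => {p | dist (Y p).1 o ≤ cap.r (n o)}.indicator
    fun p => ENNReal.ofReal (A o * (1 + cap.w (dist (Y p).1 o / 2))) ^ 2
  have hJm : ∀ o, Measurable (J o) := by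
    intro o
    refine Measurable.indicator ?_ ?_
    · refine Measurable.pow_const (ENNReal.measurable_ofReal.comp ?_) 2
      refine measurable_const.mul (measurable_const.add (cap.w_meas.comp ?_))
      exact ((hYc.dist continuous_const).measurable).div_const 2
    · exact (isClosed_le (hYc.dist continuous_const) continuous_const).measurableSet
  let MM : E → ℝ≥0∞ := fun p => (4 + ∑' o, J o p) ^ (1 / 2 : ℝ)
  have hMM2 : ∀ p, MM p ^ 2 = 4 + ∑' o, J o p := by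
    intro p
    change ((4 + ∑' o, J o p) ^ (1 / 2 : ℝ)) ^ 2 = _
    rw [← ENNReal.rpow_natCast, ← ENNReal.rpow_mul]
    norm_num
  have : Countable O := hOc.to_subtype
  have hMMm : Measurable MM := (measurable_const.add (Measurable.tsum hJm)).pow_const _
  have hle_MM : ∀ p (a : ℝ≥0∞), a ^ 2 ≤ 4 + ∑' o, J o p → a ≤ MM p := by
    intro p a ha
    rw [← hMM2] at ha
    exact (ENNReal.pow_le_pow_left_iff two_ne_zero).1 ha
  refine ⟨MM, hMMm, fun F hF => ⟨?_, ?_⟩⟩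
  swap
  · -- the integral
    have e1 : ∫⁻ x in F.thick, MM (F.proj x) ^ 2 =
        ∫⁻ x in F.thick, (4 + ∑' o, J o (F.proj x)) := by
      simp_rw [hMM2]
    have hmp : ∀ o, Measurable fun x => J o (F.proj x) := fun o =>
      (hJm o).comp F.continuous_proj.measurable
    rw [e1, lintegral_add_left measurable_const, setLIntegral_const,
      lintegral_tsum fun o => (hmp o).aemeasurable]
    have e2 : ∀ o : O, ∫⁻ x in F.thick, J o (F.proj x) ≤ ε' o * volume F.thick := by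
      intro o
      have h1 := hn0' o F hF
      have h2 : n o = n0 o := hn o o.2
      refine le_trans (le_of_eq ?_) h1
      refine lintegral_congr fun x => ?_
      change {p | dist (Y p).1 (o : Z) ≤ cap.r (n o)}.indicator _ (F.proj x) = _
      rw [h2]
      rfl
    calc 4 * volume F.thick + ∑' o, ∫⁻ x in F.thick, J o (F.proj x)
        ≤ 4 * volume F.thick + ∑' o, (ε' o : ℝ≥0∞) * volume F.thick := by
          gcongr with o
          exact e2 o
      _ = 4 * volume F.thick + (∑' o, (ε' o : ℝ≥0∞)) * volume F.thick := by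
          rw [ENNReal.tsum_mul_right]
      _ ≤ 4 * volume F.thick + 1 * volume F.thick := by
          gcongr
      _ = 5 * volume F.thick := by
          rw [← add_mul]
          norm_num
  -- the tangential estimate
  filter_upwards [b9 C R Y hC hne hgen hY hsel F hF] with x hx hxF
  obtain ⟨L, δ, hδ, hte, hlow, δ', hδ', hnear, hiff⟩ := hx hxF
  have hflat : Flat K Y F (F.proj x) L δ δ' := ⟨hδ, hδ', hte, hlow, hnear, hiff⟩
  set p := F.proj x with hp
  have hpF : p ∈ F.carrier := F.proj_mem_carrier hxF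
  have hpK : p ∈ K := hFK F hF hpF
  have hpC : p ∉ C := hFC F hF p hpF
  have hzP : (Y p).1 ∉ (fun p => (Y p).1) '' C := hnP p hpK hpC
  have hzS : (Y p).1 ∈ (fun p => (Y p).1) '' K := ⟨p, hpK, rfl⟩
  have hhz : h (Y p).1 = h0 (Y p).1 := hhS _ hzS
  have hform : ∀ᶠ y in 𝓝 (Y p), Gt y = (y.1, 2 * h y.1 - y.2) := by
    refine hG3 (Y p).1 (Y p).2 hzP fun k => ?_
    rw [hhz]
    rcases lt_or_ge |(Y p).2 - h0 (Y p).1| (8 * M' * (1 / 2) ^ k) with hlt | hge
    · exact Or.inr hlt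
    · left
      have h1 := hθgap k p hpK hge
      have hk : 1 ≤ k := by
        by_contra hk0
        have hk0' : k = 0 := by omega
        subst hk0'
        have h2 := abs_sub (Y p).2 (h0 (Y p).1)
        have h3 := hT p hpK
        have h4 := hh0T p hpK
        have h5 : T + 1 ≤ M' := le_max_right _ _
        norm_num at hge
        linarith
      have h6 : ∀ᶠ z in 𝓝 (Y p).1, θ k < infDist z ((fun p => (Y p).1) '' C) :=
        (continuous_infDist_pt _).continuousAt.eventually (lt_mem_nhds h1)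
      filter_upwards [h6] with z hz
      exact hdθ k z hk hz.le
  have hText := hTan (Y p).1 ⟨hzS, hzP⟩
  by_cases hcase : ∀ o ∈ O, (Y p).1 ∉ closedBall o (cap.r (n o))
  · -- off the spikes
    obtain ⟨l, hl⟩ := hflat.exists_l
    obtain ⟨δ₁, hδ₁, hav⟩ := exists_ball_avoid (r := fun o => cap.r (n o)) hPc.isClosed hPne
      hOfin (fun o ho => (hρτ o ho).2.1) hnρ hzP (Subset.refl O) hcase
    have hY0 : h (Y p).1 = (Y p).2 := by rw [hhz, hh1 p hpK hcase]
    obtain ⟨r, hr, Λ, hΛ⟩ := hYs (Y p) (by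
      rintro ⟨c, hc, hcp⟩
      exact hpC (Y.injective hcp ▸ hc))
    refine (tan_nonspike Y Gt F p L h δ hδ hte hY0 hform Λ r hr hΛ l hl
      (hflat.ext_nonspike hl hText ⟨δ₁, hδ₁, fun q hq hqz => ?_⟩)).mono ?_
    · exact hh1 q hq fun o ho => hav _ hqz o ho
    · refine hle_MM p 2 ?_
      have : (2 : ℝ≥0∞) ^ 2 = 4 := by norm_num
      rw [this]
      exact le_self_add
  · -- on a spike
    push Not at hcase
    obtain ⟨o, ho, hpo⟩ := hcase
    have hpoρ : dist (Y p).1 o ≤ ρ o := (mem_closedBall.1 hpo).trans (hnρ o ho)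
    have hne_o : (Y p).1 ≠ o := by
      intro heq
      obtain ⟨p₁, hp₁, p₂, hp₂, hne12, hz₁, hz₂⟩ := ho
      have aux : ∀ q ∈ K, (Y q).1 = o → q = p := by
        intro q hq hqo
        have hqb : (Y q).1 ∈ ball (Y p).1 δ' := by
          rw [hqo, ← heq]
          exact mem_ball_self hδ'
        have h1 := hflat.eq_of_near hq hqb
        have h2 : (L (q - p)).1 = 0 := by
          have h3 : (Y q).1 = (Y p).1 + (L (q - p)).1 := by rw [h1]; rfl
          rw [hqo, ← heq] at h3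
          exact left_eq_add.1 h3
        exact sub_eq_zero.1 (hflat.inj (hnear q hq hqb).2 h2)
      exact hne12 ((aux p₁ hp₁ hz₁).trans (aux p₂ hp₂ hz₂).symm)
    have hav0 : ∀ o' ∈ O \ {o}, (Y p).1 ∉ closedBall o' (cap.r (n o')) := by
      rintro o' ⟨ho', hne'⟩ hmem
      refine Set.disjoint_left.1 (hdisj o' ho' o ho hne')
        (closedBall_subset_closedBall (hnρ o' ho') hmem) (mem_closedBall.2 hpoρ)
    obtain ⟨δ₁, hδ₁, hav⟩ := exists_ball_avoid (r := fun o => cap.r (n o)) hPc.isClosed hPne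
      hOfin (fun o ho => (hρτ o ho).2.1) hnρ hzP sdiff_subset hav0
    obtain ⟨r₁, hr₁, hL₁⟩ := hΛ₁ o ho p hpK hpoρ
    obtain ⟨r₃, hr₃, hL₃⟩ := hΛ₃ o ho p hpK hpoρ
    have hGp : Gt (Y p) = ((Y p).1, 2 * h (Y p).1 - (Y p).2) := hform.self_of_nhds
    obtain ⟨r₂, hr₂, hL₂⟩ := hΛ₂ o ho (Gt (Y p)) (by rw [hGp]; exact hpoρ) (by
      rw [hGp]
      change |2 * h (Y p).1 - (Y p).2| ≤ 3 * T
      rw [hhz]
      have h1 := abs_le.1 (hh0T p hpK)
      have h2 := abs_le.1 (hT p hpK)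
      rw [abs_le]
      constructor <;> linarith)
    have hext := hflat.ext_spike (Λ₁ := Λ₁ o) (Λ₃ := Λ₃ o) (T := T) (τ := τ o)
      (Λ₁ o).2 (hΛ30 o ho) (hflat.norm_le hr₁ hL₁) (hflat.norm_ge hpK hr₃ hL₃) hText o hne_o
      cap.w (cap.φ (n o)) cap.w_nonneg cap.w_anti (cap.φ_mem (n o)) (cap.φ_lip (n o)) hT
      (hτT o ho) ⟨δ₁, hδ₁, fun q hq hqz => ?_⟩
    · have hw0 := cap.w_nonneg (dist (Y p).1 o / 2)
      have hΛ3' := hΛ30 o ho
      refine (tan_spike Y Gt F p L h δ hδ hte hform (Λ₁ o) (Λ₂ o) r₂ hr₂ hL₂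
        (hflat.norm_le hr₁ hL₁) _ (by positivity) hext).mono (hle_MM p _ ?_)
      refine le_trans ?_ (le_add_left (ENNReal.le_tsum (⟨o, ho⟩ : O)))
      change _ ≤ {p | dist (Y p).1 o ≤ cap.r (n o)}.indicator
        (fun p => ENNReal.ofReal (A o * (1 + cap.w (dist (Y p).1 o / 2))) ^ 2) p
      have hmem : p ∈ {p | dist (Y p).1 o ≤ cap.r (n o)} := mem_closedBall.1 hpo
      rw [indicator_of_mem hmem]
      refine pow_le_pow_left₀ zero_le (ENNReal.ofReal_le_ofReal ?_) 2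
      rw [hA]
      have k1 : (0 : ℝ) ≤ Λ₁ o * Λ₂ o := by positivity
      have k2 : (2 * (Λ₁ o * Λ₃ o + 2 * T * cap.w (dist (Y p).1 o / 2) + 1) + 1 : ℝ) ≤
          (2 * (Λ₁ o * Λ₃ o) + 4 * T + 3) * (1 + cap.w (dist (Y p).1 o / 2)) := by
        have k3 : (0 : ℝ) ≤ Λ₁ o * Λ₃ o := by positivity
        nlinarith [mul_nonneg k3 hw0, mul_nonneg hT0 hw0]
      calc (Λ₂ o * ((2 * (Λ₁ o * Λ₃ o + 2 * T * cap.w (dist (Y p).1 o / 2) + 1) + 1) * Λ₁ o) : ℝ)
          = (Λ₁ o * Λ₂ o) * (2 * (Λ₁ o * Λ₃ o + 2 * T * cap.w (dist (Y p).1 o / 2) + 1) + 1) := by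
            ring
        _ ≤ (Λ₁ o * Λ₂ o) *
            ((2 * (Λ₁ o * Λ₃ o) + 4 * T + 3) * (1 + cap.w (dist (Y p).1 o / 2))) :=
            mul_le_mul_of_nonneg_left k2 k1
        _ = Λ₁ o * Λ₂ o * (2 * (Λ₁ o * Λ₃ o) + 4 * T + 3) *
            (1 + cap.w (dist (Y p).1 o / 2)) := by ring
    · by_cases hqo : (Y q).1 ∈ closedBall o (cap.r (n o))
      · exact hh2 q hq o ho hqo
      · have h1 : cap.φ (n o) (dist (Y q).1 o) = 0 := by
          refine cap.φ_zero (n o) _ ?_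
          rw [mem_closedBall, not_le] at hqo
          exact hqo.le
        rw [h1, sub_zero, one_mul, zero_mul, add_zero]
        refine hh1 q hq fun o' ho' => ?_
        by_cases heq : o' = o
        · rw [heq]; exact hqo
        · exact hav _ hqz o' ⟨ho', heq⟩

/-- B11: assembly of part B. -/
theorem b11 (a1 : A1Statement) (b1 : B1Statement) (b2 : B2Statement) (b3 : B3Statement)
    (b4 : B4Statement) (b5 : B5Statement) (b6 : B6Statement) (b7 : B7Statement)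
    (b9 : B9Statement) (b10 : B10Statement) : GStatement := by
  obtain ⟨C, κ, hC, hCvol, hC1, hκid, hκ, hκs, hsel, hbox⟩ := b1
  refine ⟨C, hC, hC1, hCvol, fun R => ?_⟩
  have hne : C.Nonempty := by
    by_contra h
    rw [not_nonempty_iff_eq_empty] at h
    rw [h, measure_empty] at hCvol
    exact lt_irrefl _ hCvol
  obtain ⟨t, ht⟩ := b2 C κ hC hκ hκs hsel hbox R
  let Y : E ≃ₜ Z × ℝ := κ.trans (psiE t).toHomeomorph
  have hYdef : ∀ x, Y x = psi t (κ x) := fun x => rfl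
  have hYsdef : ∀ y, Y.symm y = κ.symm ((psiE t).symm y) := fun y => rfl
  have hpL : LipschitzWith ‖((psiE t : E →L[ℝ] Z × ℝ))‖₊ (psiE t) :=
    (psiE t : E →L[ℝ] Z × ℝ).lipschitz
  have hpsL : LipschitzWith ‖(((psiE t).symm : Z × ℝ →L[ℝ] E))‖₊ (psiE t).symm :=
    ((psiE t).symm : Z × ℝ →L[ℝ] E).lipschitz
  have hY : LocLip Y Cᶜ :=
    (LipschitzWith.locLip hpL univ).comp hκ (fun _ _ => mem_univ _)
  have hYs : LocLip Y.symm (Y '' C)ᶜ := by
    have h1 : LocLip (κ.symm ∘ (psiE t).symm) (Y '' C)ᶜ := by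
      refine hκs.comp (LipschitzWith.locLip hpsL _) ?_
      rintro y hy ⟨c, hc, hcy⟩
      refine hy ⟨c, hc, ?_⟩
      rw [hYdef, hcy]
      exact (psiE t).apply_symm_apply y
    exact h1
  have hselY : LocSel Y Cᶜ := by
    intro x hx
    obtain ⟨r, hr, S, hS, hSx⟩ := hsel x hx
    refine ⟨r, hr, (fun L : E →ᵃ[ℝ] E => ((psiE t : E →ₗ[ℝ] Z × ℝ).toAffineMap).comp L) '' S,
      hS.image _, fun y hy => ?_⟩
    obtain ⟨L, hL, hyL⟩ := hSx y hy
    refine ⟨_, ⟨L, hL, rfl⟩, ?_⟩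
    rw [hYdef, hyL]
    rfl
  obtain ⟨Gt, hG1, hG2, hG3, R', hR'⟩ := exists_mirror a1 b3 b4 b5 b6 b7 b9 b10 C R Y hC hne ht
    hY hYs hselY
  refine ⟨(Y.trans Gt).trans Y.symm, ?_, ?_, ?_, ?_⟩
  · intro x hx
    change Y.symm (Gt (Y x)) = x
    rw [hG1 x hx, Y.symm_apply_apply]
  · have h1 : LocLip (Gt ∘ Y) Cᶜ := hG2.comp hY (by
      rintro x hx ⟨c, hc, hcx⟩
      exact hx (Y.injective hcx ▸ hc))
    have h2 : LocLip (Y.symm ∘ (Gt ∘ Y)) Cᶜ := hYs.comp h1 (by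
      rintro x hx ⟨c, hc, hcx⟩
      have h3 : Gt (Y c) = Gt (Y x) := by rw [hG1 c hc]; exact hcx
      exact hx (Y.injective (Gt.injective h3) ▸ hc))
    exact h2
  · exact hG3
  · -- the far region
    set a : ℝ := ‖(((psiE t).symm : Z × ℝ →L[ℝ] E))‖ with ha
    set b : ℝ := ‖((psiE t : E →L[ℝ] Z × ℝ))‖ with hb
    have ha0 : 0 ≤ a := norm_nonneg _
    have hb0 : 0 ≤ b := norm_nonneg _
    refine ⟨1 + (a + 1) * (|R'| + b + 1), reflE t, by rw [det_reflE]; norm_num, fun x hx => ?_⟩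
    have hx1 : 1 ≤ ‖x‖ := by
      have : 0 ≤ (a + 1) * (|R'| + b + 1) := by positivity
      linarith
    have hκx : κ x = x := hκid x hx1
    have hnorm : ‖x‖ ≤ a * ‖psi t x‖ := by
      have h1 : (psiE t).symm (psiE t x) = x := (psiE t).symm_apply_apply x
      calc ‖x‖ = ‖(psiE t).symm (psiE t x)‖ := by rw [h1]
        _ ≤ a * ‖psiE t x‖ := ((psiE t).symm : Z × ℝ →L[ℝ] E).le_opNorm _
    have hpos : 0 ≤ ‖psi t x‖ := norm_nonneg _
    have hbig : |R'| + b + 1 ≤ ‖psi t x‖ := by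
      by_contra hcon
      rw [not_le] at hcon
      have h1 : a * ‖psi t x‖ ≤ (a + 1) * (|R'| + b + 1) := by
        apply mul_le_mul (by linarith) hcon.le hpos (by linarith)
      linarith
    have hYx : Y x = psi t x := by rw [hYdef, hκx]
    have hGx : Gt (Y x) = ((psi t x).1, -(psi t x).2) := by
      rw [hR' (Y x) (by rw [hYx]; linarith [le_abs_self R']), hYx]
    change Y.symm (Gt (Y x)) = reflE t x
    rw [hGx, hYsdef, reflE_apply]
    -- `κ.symm` is the identity there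
    set y := (psiE t).symm ((psi t x).1, -(psi t x).2) with hy
    have hny : ‖psi t x‖ ≤ b * ‖y‖ := by
      have h1 : psiE t y = ((psi t x).1, -(psi t x).2) := (psiE t).apply_symm_apply _
      have h2 : ‖((psi t x).1, -(psi t x).2)‖ = ‖psi t x‖ := by
        rw [Prod.norm_def, Prod.norm_def]
        simp
      rw [← h2, ← h1]
      exact (psiE t : E →L[ℝ] Z × ℝ).le_opNorm _
    have hy1 : 1 ≤ ‖y‖ := by
      by_contra hcon
      rw [not_le] at hcon
      have h1 : b * ‖y‖ ≤ b * 1 := mul_le_mul_of_nonneg_left hcon.le hb0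
      have h2 : 0 ≤ |R'| := abs_nonneg _
      linarith
    rw [Homeomorph.symm_apply_eq, hκid y hy1]

end Pool.Agent.Helper27Sob
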