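import Mathlib

/-!
Blueprint definitions for MP_60fe1d_an: a homeomorphism of `ℝ⁵` in `W^{1,2}` whose Jacobian
changes sign (critical exponent `p = [n/2]`).
-/

set_option autoImplicit false

open Set Filter Topology Metric MeasureTheory
open scoped ENNReal NNReal

namespace Pool.Agent.Helper27Sob

/-- The ambient space `ℝ⁵` with the sup norm. -/
abbrev E := Fin 5 → ℝ

/-- The space `ℝ⁴` of the projection. -/
abbrev Z := Fin 4 → ℝ

/-- `f` is locally Lipschitz at the points of `U`. -/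
def LocLip {X Y : Type*} [PseudoMetricSpace X] [PseudoMetricSpace Y] (f : X → Y) (U : Set X) :
    Prop :=
  ∀ x ∈ U, ∃ r > 0, ∃ K : ℝ≥0, LipschitzOnWith K f (ball x r)

/-! ### Dyadic cells -/

/-- The side length at scale `i`. -/
noncomputable def ell (i : ℕ) : ℝ := (1 / 2) ^ i

/-- A dyadic cell: its scale `i` and twice its centre in units of the side length.
The coordinate `j` is free iff `q j` is odd. -/
structure Cell where
  /-- the scale -/
  i : ℕ
  /-- twice the centre -/
  q : Fin 5 → ℤ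

namespace Cell

/-- The side length. -/
noncomputable def len (F : Cell) : ℝ := ell F.i

/-- The centre. -/
noncomputable def center (F : Cell) : E := fun j => (F.q j : ℝ) * F.len / 2

/-- The dimension: the number of free coordinates. -/
def dim (F : Cell) : ℕ := (Finset.univ.filter fun j => Odd (F.q j)).card

/-- The closed cell. -/
def carrier (F : Cell) : Set E :=
  {x | ∀ j, |x j - F.center j| ≤ if Odd (F.q j) then F.len / 2 else 0}

/-- The relatively open cell. -/
def inner (F : Cell) : Set E :=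
  {x | ∀ j, if Odd (F.q j) then |x j - F.center j| < F.len / 2 else x j = F.center j}

/-- The union of the closed cubes of the same scale that contain the cell. -/
def star (F : Cell) : Set E :=
  {x | ∀ j, |x j - F.center j| ≤ if Odd (F.q j) then F.len / 2 else F.len}

/-- The space of directions of the cell. -/
def dir (F : Cell) : Submodule ℝ E where
  carrier := {v | ∀ j, ¬ Odd (F.q j) → v j = 0}
  add_mem' := by
    intro a b ha hb j hj
    simp [ha j hj, hb j hj]
  zero_mem' := by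
    intro j _
    rfl
  smul_mem' := by
    intro c a ha j hj
    simp [ha j hj]

/-- The projection onto the affine span of the cell. -/
noncomputable def proj (F : Cell) (x : E) : E := fun j => if Odd (F.q j) then x j else F.center j

/-- The cube of the same centre and side length (full dimensional). -/
def thick (F : Cell) : Set E := closedBall F.center (F.len / 2)

end Cell

/-- The cell of scale `i` whose relative interior contains `x`. -/
noncomputable def cellAt (i : ℕ) (x : E) : Cell := ⟨i, fun j => ⌊x j / ell i⌋ + ⌈x j / ell i⌉⟩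

/-- The cell `F` need not be refined: the cubes of its scale around it are far from `C`. -/
def Unref (C : Set E) (F : Cell) : Prop := ∀ y ∈ F.star, ∀ c ∈ C, F.len ≤ ‖y - c‖

/-- `F` is a cell of the dyadic complex of the complement of `C`. -/
def IsC (C : Set E) (F : Cell) : Prop :=
  Unref C F ∧ (F.i = 0 ∨ ¬ Unref C (cellAt (F.i - 1) F.center))

/-- The two dimensional cells of the complex in the closed ball of radius `R`. -/
def K2 (C : Set E) (R : ℝ) : Set Cell := {F | IsC C F ∧ F.dim = 2 ∧ F.carrier ⊆ closedBall 0 R}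

/-- `C` together with the two dimensional cells in the ball. -/
def KK (C : Set E) (R : ℝ) : Set E := C ∪ ⋃ F ∈ K2 C R, F.carrier

/-! ### Tangential Lipschitz bounds -/

/-- Near `p` the map `G` is Lipschitz with constant `m` in the directions of `F`. -/
def TanAt (G : E → E) (F : Cell) (p : E) (m : ℝ≥0∞) : Prop :=
  ∃ δ > 0, ∀ z ∈ ball p δ, ∀ τ ∈ F.dir, z + τ ∈ ball p δ → ‖G (z + τ) - G z‖ₑ ≤ m * ‖τ‖ₑ

/-- On each two dimensional cell of the complex (inside the ball of radius `R`) the tangential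
Lipschitz constant of `G` is, almost everywhere, at most a function whose mean square is `≤ 5`. -/
def TanBound (C : Set E) (R : ℝ) (G : E → E) : Prop :=
  ∃ M : E → ℝ≥0∞, Measurable M ∧ ∀ F ∈ K2 C R,
    (∀ᵐ x : E, x ∈ F.thick → TanAt G F (F.proj x) (M (F.proj x))) ∧
    ∫⁻ x in F.thick, M (F.proj x) ^ 2 ≤ 5 * volume F.thick

/-! ### Chains, flags and barycentric coordinates -/

/-- `s` is a chain of cells of the complex. -/
def IsCh (C : Set E) (s : Set Cell) : Prop :=
  (∀ F ∈ s, IsC C F) ∧ ∀ F ∈ s, ∀ G ∈ s, F = G ∨ (F.dim < G.dim ∧ F.carrier ⊆ G.carrier) ∨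
    (G.dim < F.dim ∧ G.carrier ⊆ F.carrier)

/-- `w` are barycentric coordinates of `x` with respect to a chain of cells. -/
def IsBary (C : Set E) (w : Cell →₀ ℝ) (x : E) : Prop :=
  IsCh C (w.support : Set Cell) ∧ (∀ F, 0 ≤ w F) ∧ (w.sum fun _ a => a) = 1 ∧
    (w.sum fun F a => a • F.center) = x

open Classical in
/-- The barycentric coordinates of `x`. -/
noncomputable def lam (C : Set E) (x : E) : Cell →₀ ℝ :=
  if h : ∃ w, IsBary C w x then h.choose else 0

open Classical in
/-- The squeezing map with weights `ε`. -/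
noncomputable def sq (C : Set E) (ε : Cell → ℝ) (x : E) : E :=
  if x ∈ C then x else
    ((lam C x).sum fun F a => ε F * a)⁻¹ • ((lam C x).sum fun F a => (ε F * a) • F.center)

/-- `F` is a full flag of cells of the complex. -/
def IsFlag (C : Set E) (F : Fin 6 → Cell) : Prop :=
  (∀ k, IsC C (F k) ∧ (F k).dim = k) ∧ ∀ k l, k ≤ l → (F k).carrier ⊆ (F l).carrier

/-- The combination of the centres of a flag with weights `w`. -/
noncomputable def comb (F : Fin 6 → Cell) (w : Fin 6 → ℝ) : E := ∑ k, w k • (F k).center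

/-- The open simplex spanned by the centres of a flag. -/
def openSimplex (F : Fin 6 → Cell) : Set E :=
  {x | ∃ w : Fin 6 → ℝ, (∀ k, 0 < w k) ∧ ∑ k, w k = 1 ∧ comb F w = x}

open Classical in
/-- The weights of a point of the open simplex of a flag. -/
noncomputable def wt (F : Fin 6 → Cell) (x : E) : Fin 6 → ℝ :=
  if h : ∃ w : Fin 6 → ℝ, (∀ k, 0 < w k) ∧ ∑ k, w k = 1 ∧ comb F w = x then h.choose else 0

/-- The total weight of the cells of dimension `≤ 2`. -/
noncomputable def mu (F : Fin 6 → Cell) (x : E) : ℝ := wt F x 0 + wt F x 1 + wt F x 2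

/-- The projection of the open simplex of a flag to its two dimensional cell. -/
noncomputable def aa (F : Fin 6 → Cell) (x : E) : E :=
  (mu F x)⁻¹ • (wt F x 0 • (F 0).center + wt F x 1 • (F 1).center + wt F x 2 • (F 2).center)

/-! ### Part B -/

/-- `κ` is, locally at the points of `U`, a continuous selection of finitely many affine maps. -/
def LocSel {W : Type*} [NormedAddCommGroup W] [NormedSpace ℝ W] (κ : E → W) (U : Set E) : Prop :=
  ∀ x₀ ∈ U, ∃ r > 0, ∃ A : Set (E →ᵃ[ℝ] W), A.Finite ∧ ∀ x ∈ ball x₀ r, ∃ L ∈ A, κ x = L x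

/-- `Y` is covered, for each `m`, by `O(b ^ m)` balls of radius `O(8 ^ (-m))`. -/
def Boxed (b : ℝ) (Y : Set E) : Prop :=
  ∃ A : ℝ, ∀ m : ℕ, ∃ T : Finset E, (T.card : ℝ) ≤ A * b ^ m ∧
    Y ⊆ ⋃ y ∈ T, closedBall y (A * (1 / 8) ^ m)

/-- The linear coordinates `(x' - x₅ t, x₅)` of `ℝ⁵`, in which the direction `(t, 1)` is
vertical. -/
noncomputable def psi (t : Z) (x : E) : Z × ℝ := (fun i => x i.castSucc - x (Fin.last 4) * t i,
  x (Fin.last 4))

/-- General position of the compact set `K ⊇ C` with respect to the vertical projection of `Y`. -/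
structure Generic (K C : Set E) (Y : E → Z × ℝ) : Prop where
  g1 : ∀ c ∈ C, ∀ p ∈ K, (Y p).1 = (Y c).1 → p = c
  g2 : ∀ p₀ ∈ K \ C, ∃ r > 0, ∃ L : ℝ, ∀ p ∈ K ∩ ball p₀ r, ∀ q ∈ K ∩ ball p₀ r,
    ‖p - q‖ ≤ L * ‖(Y p).1 - (Y q).1‖
  g3 : ∀ p₀ ∈ K \ C, ∃ r > 0,
    {pq : E × E | pq.1 ∈ K ∩ ball p₀ r ∧ pq.2 ∈ K ∧ pq.1 ≠ pq.2 ∧
      (Y pq.1).1 = (Y pq.2).1}.Finite

/-- The multiple points of the projection of `K`. -/
def Mult (K : Set E) (Y : E → Z × ℝ) : Set Z :=
  {o | ∃ p ∈ K, ∃ q ∈ K, p ≠ q ∧ (Y p).1 = o ∧ (Y q).1 = o}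

/-- Cut-off functions showing that points have zero `2`-capacity in the plane. -/
structure CapData where
  /-- the gradient bound -/
  w : ℝ → ℝ
  /-- the cut-off functions of the distance -/
  φ : ℕ → ℝ → ℝ
  /-- the radii of the supports -/
  r : ℕ → ℝ
  w_nonneg : ∀ t, 0 ≤ w t
  w_anti : AntitoneOn w (Ioi 0)
  w_meas : Measurable w
  φ_mem : ∀ n t, φ n t ∈ Icc (0 : ℝ) 1
  r_pos : ∀ n, 0 < r n
  r_lim : Tendsto r atTop (𝓝 0)
  φ_one : ∀ n, ∃ δ > 0, ∀ t < δ, φ n t = 1
  φ_zero : ∀ n t, r n ≤ t → φ n t = 0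
  φ_lip : ∀ n s t, 0 < s → s ≤ t → |φ n s - φ n t| ≤ w s * (t - s)
  w_int : ∀ J : Finset (Fin 5), J.card = 2 → ∀ (p : E) (c R : ℝ), 0 < c →
    ∫⁻ x in closedBall p R,
      ENNReal.ofReal (w (c * ‖fun j : Fin 5 => if j ∈ J then x j - p j else 0‖) ^ 2) < ∞

/-- The tangential property of the extension `h` of `h0` from `S` at `z₀`. -/
def TanExt (S : Set Z) (h0 h : Z → ℝ) (z₀ : Z) : Prop :=
  ∀ (A : Submodule ℝ Z) (l : Z →L[ℝ] ℝ) (c : ℝ), 0 ≤ c →
    (∃ δ > 0, (∀ z ∈ ball z₀ δ, z ∈ S ↔ z - z₀ ∈ A) ∧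
      ∀ z ∈ S ∩ ball z₀ δ, ∀ z' ∈ S ∩ ball z₀ δ, |h0 z - h0 z' - l (z - z')| ≤ c * ‖z - z'‖) →
    ∀ ε > 0, ∃ δ > 0, ∀ z ∈ ball z₀ δ, ∀ v ∈ A, z + v ∈ ball z₀ δ →
      |h (z + v) - h z - l v| ≤ (c + ε) * ‖v‖

end Pool.Agent.Helper27Sob
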