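import Mathlib

/-!
Sobolev homeomorphisms and approximation by diffeomorphisms: the definitions used in the final
statement for MP_60fe1d_an.
-/

set_option autoImplicit false

open Set Filter Topology Metric MeasureTheory
open scoped ENNReal NNReal

namespace Pool.Agent.SobHomeo

/-- `ℝⁿ` with the Euclidean norm. -/
abbrev Rn (n : ℕ) := EuclideanSpace ℝ (Fin n)

/-- The (continuous) linear maps from `ℝⁿ` to itself. -/
abbrev Lin (n : ℕ) := Rn n →L[ℝ] Rn n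

/-- Test functions on `Ω`: smooth functions with compact support in `Ω`. -/
def IsTest {n : ℕ} (Ω : Set (Rn n)) (φ : Rn n → ℝ) : Prop :=
  ContDiff ℝ (⊤ : ℕ∞) φ ∧ HasCompactSupport φ ∧ tsupport φ ⊆ Ω

/-- The derivative of `φ` at `x` in the direction `v`. -/
noncomputable def dir {n : ℕ} (φ : Rn n → ℝ) (x v : Rn n) : ℝ := fderiv ℝ φ x v

/-- The vector `A v`. -/
noncomputable def app {n : ℕ} (A : Lin n) (v : Rn n) : Rn n := A v

/-- The integral of `u` over `Ω`. -/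
noncomputable def integ {n : ℕ} (Ω : Set (Rn n)) (u : Rn n → Rn n) : Rn n := ∫ x in Ω, u x

/-- `g` is the weak (distributional) derivative of `f` on the open set `Ω`: for each test
function `φ` and each vector `v`, `∫_Ω (∂_v φ) f = - ∫_Ω φ (g v)`. -/
def IsWeakDeriv {n : ℕ} (Ω : Set (Rn n)) (f : Rn n → Rn n) (g : Rn n → Lin n) : Prop :=
  ∀ φ : Rn n → ℝ, IsTest Ω φ → ∀ v : Rn n,
    integ Ω (fun x => dir φ x v • f x) = - integ Ω (fun x => φ x • app (g x) v)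

/-- `f ∈ L^p(Ω, ℝⁿ)`. -/
def InLp {n : ℕ} (p : ℝ≥0∞) (Ω : Set (Rn n)) (f : Rn n → Rn n) : Prop :=
  MemLp f p (volume.restrict Ω)

/-- `g ∈ L^p(Ω)` for a field `g` of linear maps. -/
def InLpLin {n : ℕ} (p : ℝ≥0∞) (Ω : Set (Rn n)) (g : Rn n → Lin n) : Prop :=
  MemLp g p (volume.restrict Ω)

/-- `f` belongs to `W^{1,p}(Ω, ℝⁿ)` and `g` is its weak derivative. -/
def MemW {n : ℕ} (p : ℝ≥0∞) (Ω : Set (Rn n)) (f : Rn n → Rn n) (g : Rn n → Lin n) : Prop :=
  InLp p Ω f ∧ InLpLin p Ω g ∧ IsWeakDeriv Ω f g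

/-- `f` is a Sobolev homeomorphism of class `W^{1,p}` on `Ω`: it is in `W^{1,p}(Ω, ℝⁿ)` and is a
homeomorphism of `Ω` onto `f(Ω)`. -/
def IsSobolevHomeo {n : ℕ} (p : ℝ≥0∞) (Ω : Set (Rn n)) (f : Rn n → Rn n) : Prop :=
  (∃ g, MemW p Ω f g) ∧ IsEmbedding fun x : Ω => f x

/-- The determinant of a linear map. -/
noncomputable def jac {n : ℕ} (A : Lin n) : ℝ := A.det

/-- The classical derivative of `F` at `x`. -/
noncomputable def der {n : ℕ} (F : Rn n → Rn n) (x : Rn n) : Lin n := fderiv ℝ F x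

/-- `F` is a `C^∞` diffeomorphism of `Ω` onto `F(Ω)`: it is smooth and injective on `Ω` and its
derivative is invertible at each point of `Ω`. -/
def IsDiffeo {n : ℕ} (Ω : Set (Rn n)) (F : Rn n → Rn n) : Prop :=
  ContDiffOn ℝ (⊤ : ℕ∞) F Ω ∧ InjOn F Ω ∧ ∀ x ∈ Ω, jac (der F x) ≠ 0

/-- The `L^p(Ω)` norm of `u`. -/
noncomputable def nrm {n : ℕ} (p : ℝ≥0∞) (Ω : Set (Rn n)) (u : Rn n → Rn n) : ℝ≥0∞ :=
  eLpNorm u p (volume.restrict Ω)

/-- The `L^p(Ω)` norm of a field of linear maps. -/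
noncomputable def nrmLin {n : ℕ} (p : ℝ≥0∞) (Ω : Set (Rn n)) (u : Rn n → Lin n) : ℝ≥0∞ :=
  eLpNorm u p (volume.restrict Ω)

/-- The difference of two fields of linear maps. -/
noncomputable def subLin {n : ℕ} (u v : Rn n → Lin n) (x : Rn n) : Lin n := u x - v x

/-- The `W^{1,p}(Ω)` norm of `F - f`, where `g` is the weak derivative of `f` and `F` is smooth. -/
noncomputable def distW {n : ℕ} (p : ℝ≥0∞) (Ω : Set (Rn n)) (F f : Rn n → Rn n)
    (g : Rn n → Lin n) : ℝ≥0∞ :=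
  nrm p Ω (fun x => F x - f x) + nrmLin p Ω (subLin (der F) g)

/-- `f` is approximable by diffeomorphisms in `W^{1,p}(Ω)`: there are `C^∞` diffeomorphisms
`F k : Ω → F k (Ω)` with `‖F k - f‖_{W^{1,p}(Ω)} → 0`. -/
def ApproxByDiffeo {n : ℕ} (p : ℝ≥0∞) (Ω : Set (Rn n)) (f : Rn n → Rn n) : Prop :=
  ∃ g, MemW p Ω f g ∧ ∃ F : ℕ → Rn n → Rn n, (∀ k, IsDiffeo Ω (F k)) ∧
    Tendsto (fun k => distW p Ω (F k) f g) atTop (𝓝 0)

/-- The Jacobian determinant of the field `g` of linear maps is positive on a part of `Ω` of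
positive measure and negative on another one. -/
def ChangesSign {n : ℕ} (Ω : Set (Rn n)) (g : Rn n → Lin n) : Prop :=
  0 < volume {x | x ∈ Ω ∧ 0 < jac (g x)} ∧ 0 < volume {x | x ∈ Ω ∧ jac (g x) < 0}

end Pool.Agent.SobHomeo
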