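import Pool.Agent.Helper27_Sob.TanEst

/-!
From the flatness of the projection near a generic point (B9) and the tangential property of the
extension (B5) to the hypotheses of `tan_nonspike` and `tan_spike`.
-/

set_option autoImplicit false

open Set Filter Topology Metric MeasureTheory
open scoped ENNReal NNReal

namespace Pool.Agent.Helper27Sob

/-- The flatness data of B9 at the point `p`. -/
structure Flat (K : Set E) (Y : E ≃ₜ Z × ℝ) (F : Cell) (p : E) (L : E →L[ℝ] Z × ℝ)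
    (δ δ' : ℝ) : Prop where
  pos : 0 < δ
  pos' : 0 < δ'
  te : ∀ z ∈ ball p δ, ∀ τ ∈ F.dir, z + τ ∈ ball p δ → Y (z + τ) = Y z + L τ
  low : ∀ v ∈ F.dir, δ * ‖v‖ ≤ ‖(L v).1‖
  near : ∀ q ∈ K, (Y q).1 ∈ ball (Y p).1 δ' → q ∈ ball p δ ∧ q - p ∈ F.dir
  iff : ∀ z ∈ ball (Y p).1 δ', z ∈ (fun p => (Y p).1) '' K ↔
    z - (Y p).1 ∈ F.dir.map ((ContinuousLinearMap.fst ℝ Z ℝ).comp L : E →ₗ[ℝ] Z)

variable {K : Set E} {Y : E ≃ₜ Z × ℝ} {F : Cell} {p : E} {L : E →L[ℝ] Z × ℝ} {δ δ' : ℝ}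

theorem Flat.inj (h : Flat K Y F p L δ δ') {v : E} (hv : v ∈ F.dir) (h0 : (L v).1 = 0) :
    v = 0 := by
  have h1 := h.low v hv
  rw [h0, norm_zero] at h1
  have h2 : ‖v‖ ≤ 0 := by
    by_contra hcon
    rw [not_le] at hcon
    nlinarith [h.pos, mul_pos h.pos hcon]
  exact norm_le_zero_iff.1 h2

/-- points of `K` near `p` -/
theorem Flat.eq_of_near (h : Flat K Y F p L δ δ') {q : E} (hq : q ∈ K)
    (hz : (Y q).1 ∈ ball (Y p).1 δ') : Y q = Y p + L (q - p) := by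
  obtain ⟨h1, h2⟩ := h.near q hq hz
  have h3 := h.te p (mem_ball_self h.pos) (q - p) h2 (by rwa [add_sub_cancel])
  rwa [add_sub_cancel] at h3

theorem Flat.exists_l (h : Flat K Y F p L δ δ') :
    ∃ l : Z →L[ℝ] ℝ, ∀ v ∈ F.dir, (L v).2 = l (L v).1 := by
  let f : F.dir →ₗ[ℝ] Z := (LinearMap.fst ℝ Z ℝ) ∘ₗ (L : E →ₗ[ℝ] Z × ℝ) ∘ₗ F.dir.subtype
  have hf : LinearMap.ker f = ⊥ := by
    rw [LinearMap.ker_eq_bot']
    intro v hv
    exact Subtype.ext (h.inj v.2 hv)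
  obtain ⟨g, hg⟩ := f.exists_leftInverse_of_injective hf
  let l0 : Z →ₗ[ℝ] ℝ := (LinearMap.snd ℝ Z ℝ) ∘ₗ (L : E →ₗ[ℝ] Z × ℝ) ∘ₗ F.dir.subtype ∘ₗ g
  refine ⟨LinearMap.toContinuousLinearMap l0, fun v hv => ?_⟩
  have h1 : g (L v).1 = ⟨v, hv⟩ := by
    have := congrArg (fun k => k ⟨v, hv⟩) hg
    exact this
  change (L v).2 = (L ((g (L v).1 : F.dir) : E)).2
  rw [h1]

/-- the non-spike case -/
theorem Flat.ext_nonspike (h : Flat K Y F p L δ δ') {h0 hh : Z → ℝ} {l : Z →L[ℝ] ℝ}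
    (hl : ∀ v ∈ F.dir, (L v).2 = l (L v).1)
    (hT : TanExt ((fun p => (Y p).1) '' K) h0 hh (Y p).1)
    (hloc : ∃ δ₁ > 0, ∀ q ∈ K, (Y q).1 ∈ ball (Y p).1 δ₁ → h0 (Y q).1 = (Y q).2) :
    ∀ ε > 0, ∃ δ > 0, ∀ z ∈ ball (Y p).1 δ, ∀ v ∈ F.dir, z + (L v).1 ∈ ball (Y p).1 δ →
      |hh (z + (L v).1) - hh z - l (L v).1| ≤ ε * ‖(L v).1‖ := by
  obtain ⟨δ₁, hδ₁, hloc⟩ := hloc
  have hcond : ∃ δ > 0, (∀ z ∈ ball (Y p).1 δ, z ∈ (fun p => (Y p).1) '' K ↔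
        z - (Y p).1 ∈ F.dir.map ((ContinuousLinearMap.fst ℝ Z ℝ).comp L : E →ₗ[ℝ] Z)) ∧
      ∀ z ∈ (fun p => (Y p).1) '' K ∩ ball (Y p).1 δ,
        ∀ z' ∈ (fun p => (Y p).1) '' K ∩ ball (Y p).1 δ,
        |h0 z - h0 z' - l (z - z')| ≤ 0 * ‖z - z'‖ := by
    refine ⟨min δ' δ₁, lt_min h.pos' hδ₁, fun z hz => h.iff z
      (ball_subset_ball (min_le_left _ _) hz), ?_⟩
    rintro _ ⟨⟨q, hq, rfl⟩, hzq⟩ _ ⟨⟨q', hq', rfl⟩, hzq'⟩
    simp only at hzq hzq' ⊢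
    have e1 := h.eq_of_near hq (ball_subset_ball (min_le_left _ _) hzq)
    have e2 := h.eq_of_near hq' (ball_subset_ball (min_le_left _ _) hzq')
    rw [hloc q hq (ball_subset_ball (min_le_right _ _) hzq),
      hloc q' hq' (ball_subset_ball (min_le_right _ _) hzq')]
    have hd : q - q' ∈ F.dir := by
      have := F.dir.sub_mem (h.near q hq (ball_subset_ball (min_le_left _ _) hzq)).2
        (h.near q' hq' (ball_subset_ball (min_le_left _ _) hzq')).2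
      simpa using this
    have e3 : Y q - Y q' = L (q - q') := by
      rw [e1, e2, map_sub, map_sub, map_sub]
      abel
    have e4 : (Y q).1 - (Y q').1 = (L (q - q')).1 := by rw [← e3]; rfl
    have e5 : (Y q).2 - (Y q').2 = (L (q - q')).2 := by rw [← e3]; rfl
    rw [e4, e5, hl _ hd, sub_self, abs_zero, zero_mul]
  intro ε hε
  obtain ⟨d, hd, hfin⟩ := hT _ l 0 le_rfl hcond ε hε
  refine ⟨d, hd, fun z hz v hv hzv => ?_⟩
  have := hfin z hz (L v).1 ⟨v, hv, rfl⟩ hzv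
  rwa [zero_add] at this

/-- bound for `L` on the directions of the cell -/
theorem Flat.norm_le (h : Flat K Y F p L δ δ') {Λ₁ : ℝ≥0} {r : ℝ} (hr : 0 < r)
    (hY : LipschitzOnWith Λ₁ Y (ball p r)) : ∀ v ∈ F.dir, ‖L v‖ ≤ Λ₁ * ‖v‖ := by
  intro v hv
  obtain ⟨s, hs, hsmall⟩ : ∃ s : ℝ, 0 < s ∧ s * ‖v‖ < min δ r := by
    have hm : 0 < min δ r := lt_min h.pos hr
    refine ⟨min δ r / (‖v‖ + 1), by positivity, ?_⟩
    rw [div_mul_eq_mul_div, div_lt_iff₀ (by positivity)]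
    nlinarith [norm_nonneg v]
  have hsv : p + s • v ∈ ball p (min δ r) := by
    rw [mem_ball, dist_eq_norm, add_sub_cancel_left, norm_smul, Real.norm_eq_abs,
      abs_of_pos hs]
    exact hsmall
  have h1 := h.te p (mem_ball_self h.pos) (s • v) (F.dir.smul_mem s hv)
    (ball_subset_ball (min_le_left _ _) hsv)
  have h2 := hY.dist_le_mul _ (ball_subset_ball (min_le_right _ _) hsv) p (mem_ball_self hr)
  rw [h1, dist_eq_norm, dist_eq_norm, add_sub_cancel_left, add_sub_cancel_left, map_smul,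
    norm_smul, norm_smul, Real.norm_eq_abs, abs_of_pos hs] at h2
  have h3 : s * ‖L v‖ ≤ s * (Λ₁ * ‖v‖) := by linarith
  exact le_of_mul_le_mul_left h3 hs

/-- lower bound for the projection of `L` on the directions of the cell -/
theorem Flat.norm_ge (h : Flat K Y F p L δ δ') (hp : p ∈ K) {Λ₃ r : ℝ} (hr : 0 < r)
    (hg : ∀ q ∈ K ∩ ball p r, ∀ q' ∈ K ∩ ball p r, ‖q - q'‖ ≤ Λ₃ * ‖(Y q).1 - (Y q').1‖) :
    ∀ v ∈ F.dir, ‖v‖ ≤ Λ₃ * ‖(L v).1‖ := by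
  intro v hv
  obtain ⟨s, hs, hs1, hs2⟩ : ∃ s : ℝ, 0 < s ∧ s * ‖v‖ < r ∧ s * ‖(L v).1‖ < δ' := by
    have hm : 0 < min δ' r := lt_min h.pos' hr
    refine ⟨min δ' r / (‖v‖ + ‖(L v).1‖ + 1), by positivity, ?_, ?_⟩
    · rw [div_mul_eq_mul_div, div_lt_iff₀ (by positivity)]
      nlinarith [norm_nonneg v, norm_nonneg (L v).1, min_le_right δ' r,
        mul_nonneg hr.le (norm_nonneg (L v).1), mul_le_mul_of_nonneg_right (min_le_right δ' r)
          (norm_nonneg v)]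
    · rw [div_mul_eq_mul_div, div_lt_iff₀ (by positivity)]
      nlinarith [norm_nonneg v, norm_nonneg (L v).1, min_le_left δ' r, h.pos',
        mul_nonneg h.pos'.le (norm_nonneg v), mul_le_mul_of_nonneg_right (min_le_left δ' r)
          (norm_nonneg (L v).1)]
  have hLs : (L (s • v)).1 = s • (L v).1 := by rw [map_smul]; rfl
  have hz : (Y p).1 + s • (L v).1 ∈ ball (Y p).1 δ' := by
    rw [mem_ball, dist_eq_norm, add_sub_cancel_left, norm_smul, Real.norm_eq_abs, abs_of_pos hs]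
    exact hs2
  have hS : (Y p).1 + s • (L v).1 ∈ (fun p => (Y p).1) '' K := by
    rw [h.iff _ hz]
    rw [add_sub_cancel_left]
    exact ⟨s • v, F.dir.smul_mem s hv, hLs⟩
  obtain ⟨q, hq, hqz⟩ := hS
  simp only at hqz
  have hqn : (Y q).1 ∈ ball (Y p).1 δ' := by rw [hqz]; exact hz
  have e1 := h.eq_of_near hq hqn
  have e2 : (L (q - p)).1 = s • (L v).1 := by
    have : (Y q).1 = (Y p).1 + (L (q - p)).1 := by rw [e1]; rfl
    rw [hqz] at this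
    exact (add_left_cancel this).symm
  have e3 : q - p = s • v := by
    have hd : (q - p) - s • v ∈ F.dir := F.dir.sub_mem (h.near q hq hqn).2 (F.dir.smul_mem s hv)
    have : (L ((q - p) - s • v)).1 = 0 := by
      rw [map_sub, Prod.fst_sub, e2, hLs, sub_self]
    exact sub_eq_zero.1 (h.inj hd this)
  have hqb : q ∈ ball p r := by
    rw [mem_ball, dist_eq_norm, e3, norm_smul, Real.norm_eq_abs, abs_of_pos hs]
    exact hs1
  have h2 := hg q ⟨hq, hqb⟩ p ⟨hp, mem_ball_self hr⟩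
  rw [hqz, add_sub_cancel_left, e3, norm_smul, norm_smul, Real.norm_eq_abs, abs_of_pos hs] at h2
  have h3 : s * ‖v‖ ≤ s * (Λ₃ * ‖(L v).1‖) := by linarith
  exact le_of_mul_le_mul_left h3 hs

/-- the spike case -/
theorem Flat.ext_spike (h : Flat K Y F p L δ δ') {h0 hh : Z → ℝ} {Λ₁ Λ₃ T τ : ℝ}
    (hΛ₁ : 0 ≤ Λ₁) (hΛ₃ : 0 ≤ Λ₃)
    (hL : ∀ v ∈ F.dir, ‖L v‖ ≤ Λ₁ * ‖v‖) (hlow : ∀ v ∈ F.dir, ‖v‖ ≤ Λ₃ * ‖(L v).1‖)
    (hT : TanExt ((fun p => (Y p).1) '' K) h0 hh (Y p).1) (o : Z) (ho : (Y p).1 ≠ o)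
    (w φ : ℝ → ℝ) (hw : ∀ t, 0 ≤ w t) (hwa : AntitoneOn w (Ioi 0))
    (hφ : ∀ t, φ t ∈ Icc (0 : ℝ) 1) (hφl : ∀ s t, 0 < s → s ≤ t → |φ s - φ t| ≤ w s * (t - s))
    (hTb : ∀ q ∈ K, |(Y q).2| ≤ T) (hτ : |τ| ≤ T)
    (hloc : ∃ δ₁ > 0, ∀ q ∈ K, (Y q).1 ∈ ball (Y p).1 δ₁ → h0 (Y q).1 =
      (1 - φ (dist (Y q).1 o)) * (Y q).2 + φ (dist (Y q).1 o) * τ) :
    ∃ δ > 0, ∀ z ∈ ball (Y p).1 δ, ∀ v ∈ F.dir, z + (L v).1 ∈ ball (Y p).1 δ →
      |hh (z + (L v).1) - hh z| ≤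
        (Λ₁ * Λ₃ + 2 * T * w (dist (Y p).1 o / 2) + 1) * ‖(L v).1‖ := by
  obtain ⟨δ₁, hδ₁, hloc⟩ := hloc
  have hT0 : 0 ≤ T := (abs_nonneg _).trans hτ
  set D := dist (Y p).1 o with hD
  have hDpos : 0 < D := dist_pos.2 ho
  set c := Λ₁ * Λ₃ + 2 * T * w (D / 2) with hc
  have hc0 : 0 ≤ c := by have := hw (D / 2); positivity
  -- Lipschitz bound for the cut-off
  have hφd : ∀ z z' : Z, z ∈ ball (Y p).1 (D / 2) → z' ∈ ball (Y p).1 (D / 2) →
      |φ (dist z o) - φ (dist z' o)| ≤ w (D / 2) * ‖z - z'‖ := by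
    have key : ∀ z z' : Z, z ∈ ball (Y p).1 (D / 2) → dist z o ≤ dist z' o →
        |φ (dist z o) - φ (dist z' o)| ≤ w (D / 2) * ‖z - z'‖ := by
      intro z z' hz hle
      have h1 : D / 2 < dist z o := by
        have := dist_triangle (Y p).1 z o
        rw [mem_ball, dist_comm] at hz
        linarith
      have h2 := hφl (dist z o) (dist z' o) (by linarith) hle
      have h3 : w (dist z o) ≤ w (D / 2) :=
        hwa (mem_Ioi.2 (by linarith)) (mem_Ioi.2 (by linarith)) h1.le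
      have h4 : dist z' o - dist z o ≤ ‖z - z'‖ := by
        rw [← dist_eq_norm, dist_comm z z']
        linarith [dist_triangle z' z o]
      calc |φ (dist z o) - φ (dist z' o)| ≤ w (dist z o) * (dist z' o - dist z o) := h2
        _ ≤ w (D / 2) * ‖z - z'‖ := by
          apply mul_le_mul h3 h4 (by linarith) (hw _)
    intro z z' hz hz'
    rcases le_total (dist z o) (dist z' o) with hle | hle
    · exact key z z' hz hle
    · rw [abs_sub_comm, norm_sub_rev]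
      exact key z' z hz' hle
  have hcond : ∃ δ > 0, (∀ z ∈ ball (Y p).1 δ, z ∈ (fun p => (Y p).1) '' K ↔
        z - (Y p).1 ∈ F.dir.map ((ContinuousLinearMap.fst ℝ Z ℝ).comp L : E →ₗ[ℝ] Z)) ∧
      ∀ z ∈ (fun p => (Y p).1) '' K ∩ ball (Y p).1 δ,
        ∀ z' ∈ (fun p => (Y p).1) '' K ∩ ball (Y p).1 δ,
        |h0 z - h0 z' - (0 : Z →L[ℝ] ℝ) (z - z')| ≤ c * ‖z - z'‖ := by
    refine ⟨min δ' (min δ₁ (D / 2)), lt_min h.pos' (lt_min hδ₁ (by linarith)), fun z hz => h.iff z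
      (ball_subset_ball (min_le_left _ _) hz), ?_⟩
    have m1 : min δ' (min δ₁ (D / 2)) ≤ δ' := min_le_left _ _
    have m2 : min δ' (min δ₁ (D / 2)) ≤ δ₁ := (min_le_right _ _).trans (min_le_left _ _)
    have m3 : min δ' (min δ₁ (D / 2)) ≤ D / 2 := (min_le_right _ _).trans (min_le_right _ _)
    rintro _ ⟨⟨q, hq, rfl⟩, hzq⟩ _ ⟨⟨q', hq', rfl⟩, hzq'⟩
    simp only at hzq hzq' ⊢
    have e1 := h.eq_of_near hq (ball_subset_ball m1 hzq)
    have e2 := h.eq_of_near hq' (ball_subset_ball m1 hzq')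
    rw [hloc q hq (ball_subset_ball m2 hzq), hloc q' hq' (ball_subset_ball m2 hzq')]
    have hd : q - q' ∈ F.dir := by
      have := F.dir.sub_mem (h.near q hq (ball_subset_ball m1 hzq)).2
        (h.near q' hq' (ball_subset_ball m1 hzq')).2
      simpa using this
    have e3 : Y q - Y q' = L (q - q') := by
      rw [e1, e2, map_sub, map_sub, map_sub]
      abel
    have e4 : (Y q).1 - (Y q').1 = (L (q - q')).1 := by rw [← e3]; rfl
    have e5 : (Y q).2 - (Y q').2 = (L (q - q')).2 := by rw [← e3]; rfl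
    have f1 : |(Y q).2 - (Y q').2| ≤ Λ₁ * (Λ₃ * ‖(Y q).1 - (Y q').1‖) := by
      rw [e4, e5]
      calc |(L (q - q')).2| ≤ ‖L (q - q')‖ := norm_snd_le (L (q - q'))
        _ ≤ Λ₁ * ‖q - q'‖ := hL _ hd
        _ ≤ _ := by gcongr; exact hlow _ hd
    have f2 := hφd _ _ (ball_subset_ball m3 hzq) (ball_subset_ball m3 hzq')
    have f3 := hφ (dist (Y q).1 o)
    have f4 : |τ - (Y q').2| ≤ 2 * T := by
      have := abs_sub τ (Y q').2
      linarith [hTb q' hq']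
    have f5 : ((1 - φ (dist (Y q).1 o)) * (Y q).2 + φ (dist (Y q).1 o) * τ) -
        ((1 - φ (dist (Y q').1 o)) * (Y q').2 + φ (dist (Y q').1 o) * τ) =
        (1 - φ (dist (Y q).1 o)) * ((Y q).2 - (Y q').2) +
          (φ (dist (Y q).1 o) - φ (dist (Y q').1 o)) * (τ - (Y q').2) := by ring
    rw [f5, ContinuousLinearMap.zero_apply, sub_zero]
    refine (abs_add_le _ _).trans ?_
    rw [abs_mul, abs_mul, abs_of_nonneg (sub_nonneg.2 f3.2)]
    have g1 : (1 - φ (dist (Y q).1 o)) * |(Y q).2 - (Y q').2| ≤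
        1 * (Λ₁ * (Λ₃ * ‖(Y q).1 - (Y q').1‖)) := by
      apply mul_le_mul _ f1 (abs_nonneg _) zero_le_one
      linarith [f3.1]
    have g2 : |φ (dist (Y q).1 o) - φ (dist (Y q').1 o)| * |τ - (Y q').2| ≤
        (w (D / 2) * ‖(Y q).1 - (Y q').1‖) * (2 * T) := by
      apply mul_le_mul f2 f4 (abs_nonneg _)
      have := hw (D / 2)
      positivity
    rw [hc]
    nlinarith [g1, g2]
  obtain ⟨d, hd, hfin⟩ := hT _ 0 c hc0 hcond 1 one_pos
  refine ⟨d, hd, fun z hz v hv hzv => ?_⟩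
  have := hfin z hz (L v).1 ⟨v, hv, rfl⟩ hzv
  rwa [ContinuousLinearMap.zero_apply, sub_zero] at this

end Pool.Agent.Helper27Sob
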