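import Mathlib

/-!
Sobolev homeomorphisms and approximation by diffeomorphisms: the definitions used in the final
statement for MP_60fe1d_an.
-/

set_option autoImplicit false

open Set Filter Topology Metric MeasureTheory
open scoped ENNReal NNReal

namespace Pool.Agent.Helper27Sob

/-- `ℝⁿ` with the Euclidean norm. -/
abbrev Rn (n : ℕ) := EuclideanSpace ℝ (Fin n)

/-- `g` is the weak (distributional) derivative of `f` on the open set `Ω`: for each smooth `φ`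
with compact support in `Ω` and each vector `v`, `∫ (∂_v φ) f = - ∫ φ (g v)`. -/
def IsWeakDeriv {n : ℕ} (Ω : Set (Rn n)) (f : Rn n → Rn n) (g : Rn n → Rn n →L[ℝ] Rn n) : Prop :=
  ∀ φ : Rn n → ℝ, ContDiff ℝ (⊤ : ℕ∞) φ → HasCompactSupport φ → tsupport φ ⊆ Ω → ∀ v : Rn n,
    ∫ x in Ω, fderiv ℝ φ x v • f x = - ∫ x in Ω, φ x • g x v

/-- `f` belongs to `W^{1,p}(Ω, ℝⁿ)` and `g` is its weak derivative. -/
structure MemW {n : ℕ} (p : ℝ≥0∞) (Ω : Set (Rn n)) (f : Rn n → Rn n)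
    (g : Rn n → Rn n →L[ℝ] Rn n) : Prop where
  f_mem : MemLp f p (volume.restrict Ω)
  g_mem : MemLp g p (volume.restrict Ω)
  weak : IsWeakDeriv Ω f g

/-- `f` is a homeomorphism of `Ω` onto `f(Ω)` of class `W^{1,p}`. -/
def IsSobolevHomeo {n : ℕ} (p : ℝ≥0∞) (Ω : Set (Rn n)) (f : Rn n → Rn n) : Prop :=
  (∃ g, MemW p Ω f g) ∧ IsEmbedding fun x : Ω => f x

/-- There are `C^∞` diffeomorphisms `F k : Ω → F k (Ω)` (injective smooth maps with invertible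
derivative) with `‖F k - f‖_{W^{1,p}(Ω)} → 0`. -/
def ApproxByDiffeo {n : ℕ} (p : ℝ≥0∞) (Ω : Set (Rn n)) (f : Rn n → Rn n) : Prop :=
  ∃ g, MemW p Ω f g ∧ ∃ F : ℕ → Rn n → Rn n,
    (∀ k, ContDiffOn ℝ (⊤ : ℕ∞) (F k) Ω ∧ InjOn (F k) Ω ∧ ∀ x ∈ Ω, (fderiv ℝ (F k) x).det ≠ 0) ∧
    Tendsto (fun k => eLpNorm (fun x => F k x - f x) p (volume.restrict Ω)) atTop (𝓝 0) ∧
    Tendsto (fun k => eLpNorm (fun x => fderiv ℝ (F k) x - g x) p (volume.restrict Ω))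
      atTop (𝓝 0)

end Pool.Agent.Helper27Sob
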