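import Pool.Agent.Helper27_Sob.Statements
import Pool.Agent.Helper27_Sob.SobDefs

/-!
The two statements of part M and the final statement for MP_60fe1d_an.
-/

set_option autoImplicit false

open Set Filter Topology Metric MeasureTheory
open scoped ENNReal NNReal

namespace Pool.Agent.Helper27Sob

/-- M1: a map whose weak Jacobian changes sign is not approximable by diffeomorphisms. -/
def M1Statement : Prop := ∀ (n : ℕ) (Ω : Set (Rn n)) (f : Rn n → Rn n)
  (g : Rn n → Rn n →L[ℝ] Rn n), IsOpen Ω → IsPreconnected Ω → MemW 2 Ω f g →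
  ∀ A B : Set (Rn n), A ⊆ Ω → B ⊆ Ω → volume A ≠ 0 → volume B ≠ 0 →
    (∀ x ∈ A, 0 < (g x).det) → (∀ x ∈ B, (g x).det < 0) → ¬ ApproxByDiffeo 2 Ω f

open Classical in
/-- M2: a gluing criterion for `W^{1,2}`. -/
def M2Statement : Prop := ∀ (n : ℕ) (C : Set (Rn n)) (f : Rn n → Rn n) (r : ℝ), IsCompact C →
  Continuous f → (∀ x ∈ C, f x = x) → LocLip f Cᶜ →
  ∫⁻ x in ball 0 r \ C, ‖fderiv ℝ f x‖ₑ ^ 2 < ⊤ →
    MemW 2 (ball 0 r) f fun x => if x ∈ C then ContinuousLinearMap.id ℝ (Rn n) else fderiv ℝ f x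

/-- The final statement: in dimension `5` there is a homeomorphism of `ℝ⁵` onto itself which is
in `W^{1,2}` of a ball, whose Jacobian is positive on a set of positive measure and negative on
another one, and which is not approximable by diffeomorphisms; here `2 = [5/2]`. -/
def FinalStatement : Prop := ∃ (f : Rn 5 ≃ₜ Rn 5) (g : Rn 5 → Rn 5 →L[ℝ] Rn 5) (r : ℝ)
  (A B : Set (Rn 5)), MemW 2 (ball 0 r) f g ∧ IsSobolevHomeo 2 (ball 0 r) f ∧
    A ⊆ ball 0 r ∧ B ⊆ ball 0 r ∧ MeasurableSet A ∧ MeasurableSet B ∧ 0 < volume A ∧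
    0 < volume B ∧ (∀ x ∈ A, 0 < (g x).det) ∧ (∀ x ∈ B, (g x).det < 0) ∧
    ¬ ApproxByDiffeo 2 (ball 0 r) f

end Pool.Agent.Helper27Sob
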