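import Pool.Agent.Helper88_Sob.A1
import Pool.Agent.Helper88_Sob.A2
import Pool.Agent.Helper53_Sob.A3
import Pool.Agent.Helper53_Sob.A4
import Pool.Agent.Helper23_Sob.A5
import Pool.Agent.Helper22_Sob.A6
import Pool.Agent.Helper22_Sob.A7
import Pool.Agent.Helper51_Sob.A8
import Pool.Agent.Helper57_Sob.B1
import Pool.Agent.Helper59_Sob.B2
import Pool.Agent.Helper13_Sob.B3
import Pool.Agent.Helper42_Sob.B4
import Pool.Agent.Helper19_Sob.B5
import Pool.Agent.Helper19_Sob.B6
import Pool.Agent.Helper19_Sob.B7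
import Pool.Agent.Helper94_Sob.B8
import Pool.Agent.Helper42_Sob.B9
import Pool.Agent.Helper13_Sob.B10
import Pool.Agent.Helper27_Sob.B11
import Pool.Agent.Helper22_Sob.Final
import Pool.Agent.Helper94_Sob.M1
import Pool.Agent.Helper94_Sob.M2

set_option autoImplicit false

namespace Pool.Agent.Helper27Sob

/-- The final statement. -/
theorem main : FinalStatement := by
  have a1 : A1Statement := Helper88Sob.a1
  have a2 : A2Statement := Helper88Sob.a2
  have a3 : A3Statement := Helper53Sob.a3 a1
  have a4 : A4Statement := Helper53Sob.a4 a1 a2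
  have a5 : A5Statement := Helper23Sob.a5 a1 a2 a3
  have a6 : A6Statement := Helper22Sob.a6 a1 a5
  have a7 : A7Statement := Helper22Sob.a7 a1 a5 a6
  have a8 : SqueezeStatement := Helper51Sob.a8 a3 a4 a5 a7
  have b1 : B1Statement := Helper57Sob.b1
  have b2 : B2Statement := Helper59Sob.b2 a1
  have b3 : B3Statement := Helper13Sob.b3
  have b4 : B4Statement := Helper42Sob.b4 b3
  have b5 : B5Statement := Helper19Sob.b5
  have b6 : B6Statement := Helper19Sob.b6
  have b7 : B7Statement := Helper19Sob.b7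
  have b9 : B9Statement := Helper42Sob.b9 a1 b3 b8
  have b10 : B10Statement := Helper13Sob.b10
  exact Helper22Sob.final a8 (b11 a1 b1 b2 b3 b4 b5 b6 b7 b9 b10) m1 m2

end Pool.Agent.Helper27Sob
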