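import Pool.Agent.Helper27_Sob.Basic

/-!
The linear coordinates `psi t` and the reflection.
-/

set_option autoImplicit false

open Set Filter Topology Metric MeasureTheory
open scoped ENNReal NNReal

namespace Pool.Agent.Helper27Sob

/-- The inverse of `psi t`. -/
noncomputable def psiInv (t : Z) (y : Z × ℝ) : E := Fin.snoc (fun i => y.1 i + y.2 * t i) y.2

theorem psiInv_last (t : Z) (y : Z × ℝ) : psiInv t y (Fin.last 4) = y.2 :=
  Fin.snoc_last (α := fun _ => ℝ) y.2 _

theorem psiInv_castSucc (t : Z) (y : Z × ℝ) (i : Fin 4) :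
    psiInv t y i.castSucc = y.1 i + y.2 * t i :=
  Fin.snoc_castSucc (α := fun _ => ℝ) y.2 _ i

theorem psiInv_psi (t : Z) (x : E) : psiInv t (psi t x) = x := by
  funext j
  refine Fin.lastCases ?_ (fun i => ?_) j
  · rw [psiInv_last]
    rfl
  · rw [psiInv_castSucc]
    change x i.castSucc - x (Fin.last 4) * t i + x (Fin.last 4) * t i = _
    ring

theorem psi_psiInv (t : Z) (y : Z × ℝ) : psi t (psiInv t y) = y := by
  refine Prod.ext ?_ ?_
  · funext i
    change psiInv t y i.castSucc - psiInv t y (Fin.last 4) * t i = _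
    rw [psiInv_castSucc, psiInv_last]
    ring
  · exact psiInv_last t y

/-- `psi t` as a linear equivalence. -/
noncomputable def psiLin (t : Z) : E ≃ₗ[ℝ] Z × ℝ where
  toFun := psi t
  invFun := psiInv t
  left_inv := psiInv_psi t
  right_inv := psi_psiInv t
  map_add' x y := by
    refine Prod.ext ?_ ?_
    · funext i
      simp [psi]
      ring
    · simp [psi]
  map_smul' c x := by
    refine Prod.ext ?_ ?_
    · funext i
      simp [psi]
      ring
    · simp [psi]

/-- `psi t` as a continuous linear equivalence. -/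
noncomputable def psiE (t : Z) : E ≃L[ℝ] Z × ℝ := (psiLin t).toContinuousLinearEquiv

@[simp] theorem psiE_apply (t : Z) (x : E) : psiE t x = psi t x := rfl

/-- The reflection of `Z × ℝ`. -/
noncomputable def refl2 : Z × ℝ →ₗ[ℝ] Z × ℝ := LinearMap.prodMap LinearMap.id (-LinearMap.id)

@[simp] theorem refl2_apply (y : Z × ℝ) : refl2 y = (y.1, -y.2) := rfl

theorem det_refl2 : LinearMap.det refl2 = -1 := by
  rw [refl2, LinearMap.det_prodMap]
  simp

/-- The reflection of `E`. -/
noncomputable def reflE (t : Z) : E →L[ℝ] E :=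
  LinearMap.toContinuousLinearMap
    ((psiLin t).symm.toLinearMap ∘ₗ refl2 ∘ₗ (psiLin t).toLinearMap)

theorem reflE_apply (t : Z) (x : E) : reflE t x = (psiE t).symm ((psi t x).1, -(psi t x).2) := rfl

theorem det_reflE (t : Z) : (reflE t).det = -1 := by
  have h := LinearMap.det_conj refl2 (psiLin t).symm
  rw [ContinuousLinearMap.det, reflE, LinearMap.coe_toContinuousLinearMap, ← det_refl2, ← h]
  rfl

end Pool.Agent.Helper27Sob
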