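import Pool.Agent.Helper27_Sob.Psi

/-!
Local tangential estimates for `Y⁻¹ ∘ Gt ∘ Y`.
-/

set_option autoImplicit false

open Set Filter Topology Metric MeasureTheory
open scoped ENNReal NNReal

namespace Pool.Agent.Helper27Sob

theorem TanAt.mono {G : E → E} {F : Cell} {p : E} {m m' : ℝ≥0∞} (h : TanAt G F p m)
    (hm : m ≤ m') : TanAt G F p m' := by
  obtain ⟨δ, hδ, h⟩ := h
  exact ⟨δ, hδ, fun z hz τ hτ hzτ => (h z hz τ hτ hzτ).trans (by gcongr)⟩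

/-- A version of `TanAt` with real numbers. -/
theorem tanAt_of_real {G : E → E} {F : Cell} {p : E} {m : ℝ} (hm : 0 ≤ m)
    (h : ∃ δ > 0, ∀ z ∈ ball p δ, ∀ τ ∈ F.dir, z + τ ∈ ball p δ →
      ‖G (z + τ) - G z‖ ≤ m * ‖τ‖) : TanAt G F p (ENNReal.ofReal m) := by
  obtain ⟨δ, hδ, h⟩ := h
  refine ⟨δ, hδ, fun z hz τ hτ hzτ => ?_⟩
  have h1 := h z hz τ hτ hzτ
  rw [← ofReal_norm, ← ofReal_norm, ← ENNReal.ofReal_mul hm]
  exact ENNReal.ofReal_le_ofReal h1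

/-- The tangential estimate at a point which is on the graph of `h`. -/
theorem tan_nonspike (Y : E ≃ₜ Z × ℝ) (Gt : Z × ℝ ≃ₜ Z × ℝ) (F : Cell) (p : E)
    (L : E →L[ℝ] Z × ℝ) (h : Z → ℝ) (δ : ℝ) (hδ : 0 < δ)
    (hTE : ∀ z ∈ ball p δ, ∀ τ ∈ F.dir, z + τ ∈ ball p δ → Y (z + τ) = Y z + L τ)
    (hh : h (Y p).1 = (Y p).2)
    (hform : ∀ᶠ y in 𝓝 (Y p), Gt y = (y.1, 2 * h y.1 - y.2))
    (Λ : ℝ≥0) (r : ℝ) (hr : 0 < r) (hsymm : LipschitzOnWith Λ Y.symm (ball (Y p) r))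
    (l : Z →L[ℝ] ℝ) (hl : ∀ v ∈ F.dir, (L v).2 = l (L v).1)
    (hext : ∀ ε > 0, ∃ δ > 0, ∀ z ∈ ball (Y p).1 δ, ∀ v ∈ F.dir, z + (L v).1 ∈ ball (Y p).1 δ →
      |h (z + (L v).1) - h z - l (L v).1| ≤ ε * ‖(L v).1‖) :
    TanAt (Y.symm ∘ Gt ∘ Y) F p 2 := by
  have h2 : (2 : ℝ≥0∞) = ENNReal.ofReal 2 := by simp
  rw [h2]
  refine tanAt_of_real zero_le_two ?_
  set ε : ℝ := 1 / (2 * Λ * ‖L‖ + 1) with hε
  have hden : 0 < 2 * Λ * ‖L‖ + 1 := by positivity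
  have hε0 : 0 < ε := by positivity
  obtain ⟨δ2, hδ2, hext⟩ := hext ε hε0
  -- continuity
  have hfix : Gt (Y p) = Y p := by
    rw [hform.self_of_nhds, hh]
    refine Prod.ext rfl ?_
    change 2 * (Y p).2 - (Y p).2 = (Y p).2
    ring
  have hYc : ContinuousAt Y p := Y.continuous.continuousAt
  have hGc : ContinuousAt (fun x => Gt (Y x)) p := (Gt.continuous.comp Y.continuous).continuousAt
  have hSc : ContinuousAt (fun x => Y.symm (Gt (Y x))) p :=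
    (Y.symm.continuous.comp (Gt.continuous.comp Y.continuous)).continuousAt
  obtain ⟨δ4, hδ4, h4⟩ := Metric.continuousAt_iff.1 hYc r hr
  set δ5 := min δ δ4 with hδ5
  have hδ5pos : 0 < δ5 := lt_min hδ hδ4
  have e1 : ∀ᶠ x in 𝓝 p, Gt (Y x) = ((Y x).1, 2 * h (Y x).1 - (Y x).2) := hYc.eventually hform
  have e2 : ∀ᶠ x in 𝓝 p, (Y x).1 ∈ ball (Y p).1 δ2 :=
    (continuous_fst.continuousAt.comp hYc).eventually (ball_mem_nhds _ hδ2)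
  have e3 : ∀ᶠ x in 𝓝 p, Gt (Y x) ∈ ball (Y p) r := by
    have := hGc.eventually (ball_mem_nhds (Gt (Y p)) hr)
    rwa [hfix] at this
  have e4 : ∀ᶠ x in 𝓝 p, Y.symm (Gt (Y x)) ∈ ball p (δ5 / 2) := by
    have := hSc.eventually (ball_mem_nhds (Y.symm (Gt (Y p))) (half_pos hδ5pos))
    rwa [hfix, Y.symm_apply_apply] at this
  have e5 : ∀ᶠ x in 𝓝 p, x ∈ ball p (δ5 / 4) := ball_mem_nhds _ (by positivity)
  obtain ⟨δ3, hδ3, hall⟩ := Metric.eventually_nhds_iff_ball.1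
    (e1.and (e2.and (e3.and (e4.and e5))))
  refine ⟨δ3, hδ3, fun x hx τ hτ hxτ => ?_⟩
  obtain ⟨a1, a2, a3, a4, a5⟩ := hall x hx
  obtain ⟨b1, b2, b3, b4, b5⟩ := hall (x + τ) hxτ
  have hτn : ‖τ‖ < δ5 / 2 := by
    have h6 : τ = (x + τ) - x := by abel
    rw [h6]
    have h7 : dist (x + τ) x < δ5 / 4 + δ5 / 4 :=
      (dist_triangle_right _ _ p).trans_lt (add_lt_add (mem_ball.1 b5) (mem_ball.1 a5))
    rw [dist_eq_norm] at h7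
    linarith
  have hYτ : Y (x + τ) = Y x + L τ :=
    hTE x (ball_subset_ball (by linarith [min_le_left δ δ4]) a5) τ hτ
      (ball_subset_ball (by linarith [min_le_left δ δ4]) b5)
  set u := Gt (Y x) with hu
  set x' := Y.symm u with hx'
  have hx'τ : x' + τ ∈ ball p δ5 := by
    rw [mem_ball, dist_eq_norm] at a4 ⊢
    calc ‖x' + τ - p‖ = ‖(x' - p) + τ‖ := by congr 1; abel
      _ ≤ ‖x' - p‖ + ‖τ‖ := norm_add_le _ _
      _ < δ5 := by linarith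
  have hYx' : Y (x' + τ) = u + L τ := by
    rw [hTE x' (ball_subset_ball (by linarith [min_le_left δ δ4]) a4) τ hτ
      (ball_subset_ball (min_le_left _ _) hx'τ), hx', Y.apply_symm_apply]
  have hin : u + L τ ∈ ball (Y p) r := by
    rw [← hYx']
    exact h4 (lt_of_lt_of_le (mem_ball.1 hx'τ) (min_le_right _ _))
  -- the difference
  have hfst : (Y (x + τ)).1 = (Y x).1 + (L τ).1 := by rw [hYτ]; rfl
  have hsnd : (Y (x + τ)).2 = (Y x).2 + (L τ).2 := by rw [hYτ]; rfl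
  have hkey := hext (Y x).1 a2 τ hτ (by rw [← hfst]; exact b2)
  have hdiff : ‖Gt (Y (x + τ)) - (u + L τ)‖ ≤ 2 * (ε * ‖(L τ).1‖) := by
    rw [b1, a1]
    rw [Prod.norm_def]
    refine max_le ?_ ?_
    · have : ((Y (x + τ)).1, 2 * h (Y (x + τ)).1 - (Y (x + τ)).2).1 -
          (((Y x).1, 2 * h (Y x).1 - (Y x).2) + L τ).1 = 0 := by
        change (Y (x + τ)).1 - ((Y x).1 + (L τ).1) = 0
        rw [hfst, sub_self]
      rw [Prod.fst_sub, this, norm_zero]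
      positivity
    · change ‖(2 * h (Y (x + τ)).1 - (Y (x + τ)).2) -
          ((2 * h (Y x).1 - (Y x).2) + (L τ).2)‖ ≤ _
      have : (2 * h (Y (x + τ)).1 - (Y (x + τ)).2) -
          ((2 * h (Y x).1 - (Y x).2) + (L τ).2) =
          2 * (h ((Y x).1 + (L τ).1) - h (Y x).1 - l (L τ).1) := by
        rw [hfst, hsnd, hl τ hτ]
        ring
      rw [this, norm_mul, Real.norm_eq_abs, Real.norm_eq_abs, abs_two]
      gcongr
  have hL1 : ‖(L τ).1‖ ≤ ‖L‖ * ‖τ‖ := (norm_fst_le _).trans (L.le_opNorm τ)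
  have hlip := hsymm.dist_le_mul _ b3 _ hin
  rw [dist_eq_norm, dist_eq_norm] at hlip
  have hsy : Y.symm (u + L τ) = x' + τ := by rw [← hYx', Y.symm_apply_apply]
  change ‖Y.symm (Gt (Y (x + τ))) - x'‖ ≤ 2 * ‖τ‖
  calc ‖Y.symm (Gt (Y (x + τ))) - x'‖
      = ‖(Y.symm (Gt (Y (x + τ))) - Y.symm (u + L τ)) + τ‖ := by
        rw [hsy]; congr 1; abel
    _ ≤ ‖Y.symm (Gt (Y (x + τ))) - Y.symm (u + L τ)‖ + ‖τ‖ := norm_add_le _ _
    _ ≤ Λ * (2 * (ε * (‖L‖ * ‖τ‖))) + ‖τ‖ := by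
        gcongr
        refine hlip.trans ?_
        gcongr
        refine hdiff.trans ?_
        gcongr
    _ = (2 * Λ * ‖L‖) * ε * ‖τ‖ + ‖τ‖ := by ring
    _ ≤ 1 * ‖τ‖ + ‖τ‖ := by
        gcongr
        rw [hε, mul_one_div, div_le_one hden]
        linarith
    _ = 2 * ‖τ‖ := by ring

/-- The tangential estimate at a point of a spike. -/
theorem tan_spike (Y : E ≃ₜ Z × ℝ) (Gt : Z × ℝ ≃ₜ Z × ℝ) (F : Cell) (p : E)
    (L : E →L[ℝ] Z × ℝ) (h : Z → ℝ) (δ : ℝ) (hδ : 0 < δ)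
    (hTE : ∀ z ∈ ball p δ, ∀ τ ∈ F.dir, z + τ ∈ ball p δ → Y (z + τ) = Y z + L τ)
    (hform : ∀ᶠ y in 𝓝 (Y p), Gt y = (y.1, 2 * h y.1 - y.2))
    (Λ₁ Λ₂ : ℝ≥0) (r : ℝ) (hr : 0 < r)
    (hsymm : LipschitzOnWith Λ₂ Y.symm (ball (Gt (Y p)) r))
    (hL : ∀ v ∈ F.dir, ‖L v‖ ≤ Λ₁ * ‖v‖) (c : ℝ) (hc : 0 ≤ c)
    (hext : ∃ δ > 0, ∀ z ∈ ball (Y p).1 δ, ∀ v ∈ F.dir, z + (L v).1 ∈ ball (Y p).1 δ →
      |h (z + (L v).1) - h z| ≤ c * ‖(L v).1‖) :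
    TanAt (Y.symm ∘ Gt ∘ Y) F p (ENNReal.ofReal (Λ₂ * ((2 * c + 1) * Λ₁))) := by
  refine tanAt_of_real (by positivity) ?_
  obtain ⟨δ2, hδ2, hext⟩ := hext
  have hYc : ContinuousAt Y p := Y.continuous.continuousAt
  have hGc : ContinuousAt (fun x => Gt (Y x)) p := (Gt.continuous.comp Y.continuous).continuousAt
  have e1 : ∀ᶠ x in 𝓝 p, Gt (Y x) = ((Y x).1, 2 * h (Y x).1 - (Y x).2) := hYc.eventually hform
  have e2 : ∀ᶠ x in 𝓝 p, (Y x).1 ∈ ball (Y p).1 δ2 :=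
    (continuous_fst.continuousAt.comp hYc).eventually (ball_mem_nhds _ hδ2)
  have e3 : ∀ᶠ x in 𝓝 p, Gt (Y x) ∈ ball (Gt (Y p)) r := hGc.eventually (ball_mem_nhds _ hr)
  have e5 : ∀ᶠ x in 𝓝 p, x ∈ ball p δ := ball_mem_nhds _ hδ
  obtain ⟨δ3, hδ3, hall⟩ := Metric.eventually_nhds_iff_ball.1 (e1.and (e2.and (e3.and e5)))
  refine ⟨δ3, hδ3, fun x hx τ hτ hxτ => ?_⟩
  obtain ⟨a1, a2, a3, a5⟩ := hall x hx
  obtain ⟨b1, b2, b3, b5⟩ := hall (x + τ) hxτ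
  have hYτ : Y (x + τ) = Y x + L τ := hTE x a5 τ hτ b5
  have hfst : (Y (x + τ)).1 = (Y x).1 + (L τ).1 := by rw [hYτ]; rfl
  have hsnd : (Y (x + τ)).2 = (Y x).2 + (L τ).2 := by rw [hYτ]; rfl
  have hkey := hext (Y x).1 a2 τ hτ (by rw [← hfst]; exact b2)
  have hdiff : ‖Gt (Y (x + τ)) - Gt (Y x)‖ ≤ (2 * c + 1) * ‖L τ‖ := by
    rw [b1, a1, Prod.norm_def]
    refine max_le ?_ ?_
    · change ‖(Y (x + τ)).1 - (Y x).1‖ ≤ _
      rw [hfst, add_sub_cancel_left]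
      calc ‖(L τ).1‖ ≤ 1 * ‖L τ‖ := by rw [one_mul]; exact norm_fst_le _
        _ ≤ (2 * c + 1) * ‖L τ‖ := by gcongr; linarith
    · change ‖(2 * h (Y (x + τ)).1 - (Y (x + τ)).2) - (2 * h (Y x).1 - (Y x).2)‖ ≤ _
      have : (2 * h (Y (x + τ)).1 - (Y (x + τ)).2) - (2 * h (Y x).1 - (Y x).2) =
          2 * (h ((Y x).1 + (L τ).1) - h (Y x).1) - (L τ).2 := by
        rw [hfst, hsnd]
        ring
      rw [this]
      refine (norm_sub_le _ _).trans ?_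
      rw [norm_mul, Real.norm_eq_abs, Real.norm_eq_abs, abs_two]
      have h1 : ‖(L τ).2‖ ≤ ‖L τ‖ := norm_snd_le _
      have h2 : |h ((Y x).1 + (L τ).1) - h (Y x).1| ≤ c * ‖L τ‖ :=
        hkey.trans (by gcongr; exact norm_fst_le _)
      linarith
  have hlip := hsymm.dist_le_mul _ b3 _ a3
  rw [dist_eq_norm, dist_eq_norm] at hlip
  change ‖Y.symm (Gt (Y (x + τ))) - Y.symm (Gt (Y x))‖ ≤ _
  calc ‖Y.symm (Gt (Y (x + τ))) - Y.symm (Gt (Y x))‖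
      ≤ Λ₂ * ((2 * c + 1) * (Λ₁ * ‖τ‖)) := by
        refine hlip.trans ?_
        gcongr
        refine hdiff.trans ?_
        gcongr
        exact hL τ hτ
    _ = Λ₂ * ((2 * c + 1) * Λ₁) * ‖τ‖ := by ring

end Pool.Agent.Helper27Sob
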